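import Pool.Agent.TH766.HP.Main
import Pool.Agent.Y214.HB.Stm
import Pool.Agent.Y932.HB.Base
import Pool.Agent.Y155.HB.Spec
import Pool.Agent.Y972.HB.NR
import Pool.Agent.Y945.HB.Fac
import Pool.Agent.Y420.HB.LocFin

/-!
# Sets of rational numbers avoided by residue classes
-/

set_option autoImplicit false

namespace Pool.Agent.H105.TP

open Polynomial Pool.Agent.TH766.HP Pool.Agent.Y214.HB

/-- Every residue class contains a residue class with only finitely many elements of `E`. -/
def Negl (E : Set ℚ) : Prop := ∀ a b : ℤ, 0 < b → ∃ a' b' : ℤ, 0 < b' ∧ b ∣ b' ∧ b ∣ a' - a ∧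
  (E ∩ Cls a' b').Finite

theorem Negl.mono {E E' : Set ℚ} (h : E ⊆ E') (hE : Negl E') : Negl E := by
  intro a b hb
  obtain ⟨a', b', h1, h2, h3, h4⟩ := hE a b hb
  exact ⟨a', b', h1, h2, h3, h4.subset (Set.inter_subset_inter_left _ h)⟩

theorem Negl.of_finite {E : Set ℚ} (h : E.Finite) : Negl E := fun a b hb =>
  ⟨a, b, hb, dvd_rfl, by simp, h.subset Set.inter_subset_left⟩

theorem Negl.union {E E' : Set ℚ} (hE : Negl E) (hE' : Negl E') : Negl (E ∪ E') := by
  intro a b hb
  obtain ⟨a', b', h1, h2, h3, h4⟩ := hE a b hb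
  obtain ⟨a'', b'', h1', h2', h3', h4'⟩ := hE' a' b' h1
  refine ⟨a'', b'', h1', h2.trans h2', ?_, ?_⟩
  · have : a'' - a = (a'' - a') + (a' - a) := by ring
    rw [this]
    exact dvd_add (h2.trans h3') h3
  · rw [Set.union_inter_distrib_right]
    exact (h4.subset (Set.inter_subset_inter_right _ (Cls_mono h1' h2' h3'))).union h4'

theorem Negl.biUnion {ι : Type*} (s : Finset ι) (E : ι → Set ℚ) (h : ∀ i ∈ s, Negl (E i)) :
    Negl (⋃ i ∈ s, E i) := by
  classical
  induction s using Finset.induction_on with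
  | empty => simpa using Negl.of_finite Set.finite_empty
  | insert i s _ ih =>
    have : (⋃ j ∈ insert i s, E j) = E i ∪ ⋃ j ∈ s, E j := by
      simp
    rw [this]
    exact (h i (Finset.mem_insert_self i s)).union
      (ih fun j hj => h j (Finset.mem_insert_of_mem hj))

theorem exists_large {L : Set ℕ} (h : Dv L) (N : ℕ) : ∃ p ∈ L, N < p := by
  by_contra hcon
  push Not at hcon
  apply h
  refine summable_of_hasFiniteSupport ((Set.finite_Iic N).subset ?_)
  intro k hk
  rw [Function.mem_support] at hk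
  by_contra hkN
  apply hk
  rw [Set.indicator_of_notMem]
  intro hkL
  exact hkN (hcon k hkL)

theorem av_base (P : (MvPolynomial (Fin 1) ℤ)[X]) (hP : Base (n := 0) P) :
    Negl {x : ℚ | ∃ w : ℚ, (P.map (evQ (n := 0) fun _ => x)).eval w = 0} := by
  intro a b hb
  obtain ⟨p, ⟨hp, c, -, hO⟩, hpb⟩ := exists_large hP b.toNat
  have hpF : Fact p.Prime := ⟨hp⟩
  have hpb' : b < p := by omega
  have hcop : IsCoprime b (p : ℤ) := by
    rw [Int.isCoprime_iff_gcd_eq_one]
    have h1 : Int.gcd b (p : ℤ) = Nat.gcd b.natAbs p := rfl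
    have h2 : Nat.Coprime b.natAbs p := by
      rw [Nat.coprime_comm]
      exact (Nat.Prime.coprime_iff_not_dvd hp).2 fun hd => by
        have := Nat.le_of_dvd (by omega) hd
        omega
    rw [h1]
    exact h2
  obtain ⟨u, v, huv⟩ := hcop
  -- the class
  refine ⟨a + b * (u * (c 0 - a)), b * p, mul_pos hb (by exact_mod_cast hp.pos),
    dvd_mul_right _ _, by simp, ?_⟩
  have hdiv : (p : ℤ) ∣ (a + b * (u * (c 0 - a))) - c 0 := by
    refine ⟨-(v * (c 0 - a)), ?_⟩
    linear_combination (c 0 - a) * huv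
  have hempty : {x : ℚ | ∃ w : ℚ, (P.map (evQ (n := 0) fun _ => x)).eval w = 0} ∩
      Cls (a + b * (u * (c 0 - a))) (b * p) = ∅ := by
    rw [Set.eq_empty_iff_forall_notMem]
    rintro x ⟨⟨w, hw⟩, hx⟩
    have h1 := hx p hp (dvd_mul_left _ _)
    have h2 : padicNorm p (((b * p : ℤ)) : ℚ) < 1 := by
      rw [padicNorm.int_lt_one_iff]
      exact dvd_mul_left _ _
    have h3 : padicNorm p (((a + b * (u * (c 0 - a)) - c 0 : ℤ)) : ℚ) < 1 := by
      rw [padicNorm.int_lt_one_iff]
      exact hdiv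
    have h4 : padicNorm p (x - c 0) < 1 := by
      have h5 : x - c 0 = (x - ((a + b * (u * (c 0 - a)) : ℤ) : ℚ)) +
          (((a + b * (u * (c 0 - a)) - c 0 : ℤ)) : ℚ) := by
        push_cast
        ring
      rw [h5]
      exact lt_of_le_of_lt padicNorm.nonarchimedean (max_lt (h1.trans_lt h2) h3)
    refine Pool.Agent.Y420.HB.t_LOC 0 P p c hO (fun _ => x) (fun i => ?_) w hw
    have hi : i = 0 := by
      ext
      have := i.isLt
      simp at this
      simpa using this
    subst hi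
    have h6 : ((x : ℚ_[p]) - ((c 0 : ℤ) : ℚ_[p])) = (((x - c 0 : ℚ)) : ℚ_[p]) := by
      push_cast
      ring
    rw [h6, Padic.eq_padicNorm]
    exact_mod_cast h4
  rw [hempty]
  exact Set.finite_empty

end Pool.Agent.H105.TP
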