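import Pool.Agent.H105.TP.Near

/-!
# Local conditions
-/

set_option autoImplicit false

namespace Pool.Agent.H105.TP

open Polynomial Pool.Agent.H527R9.CC Pool.Agent.TH766.HP

/-- Outside `E` the set `R` is open and closed in the product topology of `ℝ` and all the `ℚ_p`: if
`x` is not in `E` then `y` is in `R` if and only if `x` is in `R`, for all `y` close to `x` at the
real place and at the primes which divide a certain integer `m`. -/
def Clopen (E R : Set ℚ) : Prop :=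
  ∀ x, x ∉ E → ∃ (ε : ℚ) (m : ℤ), 0 < ε ∧ 0 < m ∧ ∀ y : ℚ, |y - x| < ε →
    y - x ∈ Cls 0 m → (y ∈ R ↔ x ∈ R)

/-- Outside `E` the set `P` is closed in the `p`-adic topology. -/
def PadicClosed (p : ℕ) (E P : Set ℚ) : Prop :=
  ∀ x, x ∉ E → x ∉ P → ∃ ε : ℚ, 0 < ε ∧ ∀ y : ℚ, padicNorm p (y - x) < ε → y ∉ P

/-- Outside `E` the set `P` is open and closed in the `p`-adic topology. -/
def PadicClopen (p : ℕ) (E P : Set ℚ) : Prop :=
  ∀ x, x ∉ E → ∃ ε : ℚ, 0 < ε ∧ ∀ y : ℚ, padicNorm p (y - x) < ε → (y ∈ P ↔ x ∈ P)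

/-- For some number `L ≥ 1` and some finite set `H` of nonconstant integer polynomials, and for all
sufficiently large primes `p` of `Q` such that the polynomials of `H` have roots in `ℚ_[p]`, the set
`P p` contains the `L`-th powers of all rational numbers with sufficiently large `p`-adic absolute
value. -/
def NearInfinity (Q : Set ℕ) (P : ℕ → Set ℚ) : Prop :=
  ∃ (L N : ℕ) (H : Finset ℤ[X]), L ≠ 0 ∧ (∀ h ∈ H, 0 < h.natDegree) ∧
    ∀ (p : ℕ) [Fact p.Prime], p ∈ Q → N < p → (∀ h ∈ H, ∃ t : ℚ_[p], aeval t h = 0) →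
      ∃ c : ℚ, ∀ z : ℚ, c < padicNorm p z → z ^ L ∈ P p

/-- There are local invariants `γ_∞ ∈ J x` and `γ_p ∈ I p x` for all primes `p`, almost all of them
zero, whose sum is zero. -/
def Manin {Γ : Type} [AddCommGroup Γ] (J : ℚ → Set Γ) (I : ℕ → ℚ → Set Γ) (x : ℚ) : Prop :=
  ∃ (s : Finset ℕ) (γ : ℕ → Γ), (∀ p ∈ s, p.Prime) ∧ (∀ p : ℕ, p.Prime → γ p ∈ I p x) ∧
    (∀ p : ℕ, p.Prime → p ∉ s → γ p = 0) ∧ -∑ p ∈ s, γ p ∈ J x

end Pool.Agent.H105.TP
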