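import Pool.Agent.H105.TP.Near

/-!
# Generic points of a projective family over the line, for all fields of characteristic zero
-/

set_option autoImplicit false

namespace Pool.Agent.H105.TP

open Polynomial Pool.Agent.TH766.HP Pool.Agent.TH146.GEN

theorem neg_case' {n r : ℕ} (F : Fin r → MvPolynomial (Fin n) ℚ[X]) (hF : Homog F)
    (D : Fin n → ℚ[X])
    (h : ∀ i, (MvPolynomial.C (D i) : MvPolynomial (Fin n) ℚ[X]) ∈ aff F i)
    (k : Type) [Field k] [Algebra ℚ k] (x : k) (hx : aeval x (∏ i, D i) ≠ 0) :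
    ¬ HasPoint k F x := by
  classical
  rintro ⟨y, hy0, hy⟩
  apply hx
  obtain ⟨i, hi⟩ : ∃ i, y i ≠ 0 := by
    by_contra hcon
    push Not at hcon
    exact hy0 (funext hcon)
  let f : ℚ[X] →+* k := ((aeval x : ℚ[X] →ₐ[ℚ] k) : ℚ[X] →+* k)
  let φ : MvPolynomial (Fin n) ℚ[X] →+* k := MvPolynomial.eval₂Hom f (fun l => (y i)⁻¹ * y l)
  have hφ : aff F i ≤ RingHom.ker φ := by
    rw [aff, Ideal.span_le]
    rintro P (⟨j, rfl⟩ | hP)
    · obtain ⟨d, hd⟩ := hF j
      change MvPolynomial.eval₂ f (fun l => (y i)⁻¹ * y l) (F j) = 0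
      rw [eval₂_smul f hd]
      have := hy j
      rw [show MvPolynomial.eval₂ f y (F j) = 0 from this, mul_zero]
    · rw [Set.mem_singleton_iff] at hP
      subst hP
      change φ (MvPolynomial.X i - 1) = 0
      simp [φ, hi]
  have h1 : φ (MvPolynomial.C (D i)) = 0 := hφ (h i)
  have h2 : aeval x (D i) = 0 := by
    have h3 : φ (MvPolynomial.C (D i)) = f (D i) := MvPolynomial.eval₂Hom_C _ _ _
    rw [h3] at h1
    exact h1
  rw [map_prod]
  exact Finset.prod_eq_zero (Finset.mem_univ i) h2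

attribute [local instance] MvPolynomial.algebraMvPolynomial in
/-- Either almost all fibres have no points at all or there are points given by algebraic
functions. -/
theorem gen2 (n r : ℕ) (F : Fin r → MvPolynomial (Fin n) ℚ[X]) (hF : Homog F) :
    (∃ D : ℚ[X], D ≠ 0 ∧ ∀ (k : Type) [Field k] [Algebra ℚ k] (x : k), aeval x D ≠ 0 →
      ¬ HasPoint k F x) ∨
    ∃ (g : ℚ[X][X]) (E : ℚ[X]), Sep g ∧ E ≠ 0 ∧ ∀ (k : Type) [Field k] [Algebra ℚ k] (x t : k),
      aeval x E ≠ 0 → (g.map ((aeval x : ℚ[X] →ₐ[ℚ] k) : ℚ[X] →+* k)).eval t = 0 →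
        HasPoint k F x := by
  classical
  by_cases hcase : ∀ i, ∃ D : ℚ[X], D ≠ 0 ∧
      (MvPolynomial.C D : MvPolynomial (Fin n) ℚ[X]) ∈ aff F i
  · choose D hD hm using hcase
    exact Or.inl ⟨∏ i, D i, Finset.prod_ne_zero_iff.2 fun i _ => hD i,
      fun k _ _ x hx => neg_case' F hF D hm k x hx⟩
  · right
    push Not at hcase
    obtain ⟨i, hi⟩ := hcase
    let f : MvPolynomial (Fin n) ℚ[X] →+* MvPolynomial (Fin n) K :=
      MvPolynomial.map (algebraMap ℚ[X] K)
    have hne : Ideal.map (algebraMap (MvPolynomial (Fin n) ℚ[X]) (MvPolynomial (Fin n) K))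
        (aff F i) ≠ ⊤ := by
      rw [IsLocalization.map_algebraMap_ne_top_iff_disjoint
        ((nonZeroDivisors ℚ[X]).map (MvPolynomial.C (σ := Fin n)))]
      rw [Set.disjoint_left]
      rintro _ ⟨D, hD, rfl⟩ hmem
      exact hi D (nonZeroDivisors.ne_zero hD) hmem
    obtain ⟨m, hm, hle⟩ := Ideal.exists_le_maximal _ hne
    let : Field (MvPolynomial (Fin n) K ⧸ m) := Ideal.Quotient.field m
    have : FiniteDimensional K (MvPolynomial (Fin n) K ⧸ m) :=
      finite_of_finite_type_of_isJacobsonRing K _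
    have hz : ∀ P ∈ aff F i, Ideal.Quotient.mk m (f P) = 0 := by
      intro P hP
      rw [Ideal.Quotient.eq_zero_iff_mem]
      exact hle (Ideal.mem_map_of_mem _ hP)
    refine pos_case F hF (L := MvPolynomial (Fin n) K ⧸ m)
      (fun l => Ideal.Quotient.mk m (MvPolynomial.X l)) i ?_ ?_
    · have := hz (MvPolynomial.X i - 1) (Ideal.subset_span (Or.inr rfl))
      simp only [f, map_sub, map_one, MvPolynomial.map_X] at this
      exact sub_eq_zero.1 this
    · intro j
      have := hz (F j) (Ideal.subset_span (Or.inl ⟨j, rfl⟩))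
      rw [← this]
      have h2 : ∀ P : MvPolynomial (Fin n) ℚ[X], MvPolynomial.eval₂
          ((algebraMap K (MvPolynomial (Fin n) K ⧸ m)).comp (algebraMap ℚ[X] K))
          (fun l => Ideal.Quotient.mk m (MvPolynomial.X l)) P = Ideal.Quotient.mk m (f P) := by
        intro P
        have h3 : (MvPolynomial.eval₂Hom
            ((algebraMap K (MvPolynomial (Fin n) K ⧸ m)).comp (algebraMap ℚ[X] K))
            (fun l => Ideal.Quotient.mk m (MvPolynomial.X l))) = (Ideal.Quotient.mk m).comp f := by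
          apply MvPolynomial.ringHom_ext
          · intro q
            simp only [MvPolynomial.eval₂Hom_C, RingHom.comp_apply, f, MvPolynomial.map_C]
            rfl
          · intro l
            simp only [MvPolynomial.eval₂Hom_X', RingHom.comp_apply, f, MvPolynomial.map_X]
        exact congrArg (fun h => h P) h3
      exact h2 (F j)

end Pool.Agent.H105.TP
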