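import Pool.Agent.H105.TP.Thin

/-!
# Rational solutions of a polynomial equation in one unknown, depending on a parameter
-/

set_option autoImplicit false

namespace Pool.Agent.H105.TP

open Polynomial

/-- the rational function `ρ` is a root of the polynomial `G(X, Y)` in `Y` -/
def IsRt (G : ℚ[X][X]) (ρ : RatFunc ℚ) : Prop :=
  (G.map (algebraMap ℚ[X] (RatFunc ℚ))).eval ρ = 0

/-- the value of the rational function `ρ` at `x` -/
noncomputable def val (ρ : RatFunc ℚ) (x : ℚ) : ℚ := ρ.num.eval x / ρ.denom.eval x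

theorem algebraMap_denom (ρ : RatFunc ℚ) : algebraMap ℚ[X] (RatFunc ℚ) ρ.denom ≠ 0 := by
  rw [Ne, map_eq_zero_iff _ (IsFractionRing.injective ℚ[X] (RatFunc ℚ))]
  exact ρ.denom_ne_zero

theorem algebraMap_num (ρ : RatFunc ℚ) : algebraMap ℚ[X] (RatFunc ℚ) ρ.num =
    algebraMap ℚ[X] (RatFunc ℚ) ρ.denom * ρ := by
  have h := RatFunc.num_div_denom ρ
  rw [div_eq_iff (algebraMap_denom ρ)] at h
  rw [h, mul_comm]

theorem scale_zero (G : ℚ[X][X]) (ρ : RatFunc ℚ) (h : IsRt G ρ) :
    (scaleRoots G ρ.denom).eval ρ.num = 0 := by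
  apply IsFractionRing.injective ℚ[X] (RatFunc ℚ)
  have h1 : Polynomial.eval₂ (algebraMap ℚ[X] (RatFunc ℚ)) ρ G = 0 := by
    rw [← Polynomial.eval_map]
    exact h
  rw [map_zero, ← Polynomial.eval₂_at_apply, algebraMap_num, scaleRoots_eval₂_mul, h1, mul_zero]

theorem root_val (G : ℚ[X][X]) (ρ : RatFunc ℚ) (h : IsRt G ρ) (x : ℚ)
    (hx : ρ.denom.eval x ≠ 0) : (G.map (evalRingHom x)).eval (val ρ x) = 0 := by
  have hx' : (evalRingHom x) ρ.denom ≠ 0 := hx
  have h3 := scaleRoots_eval₂_mul (p := G) (evalRingHom x)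
    ((evalRingHom x) ρ.num / (evalRingHom x) ρ.denom) ρ.denom
  rw [mul_div_cancel₀ _ hx', Polynomial.eval₂_at_apply, scale_zero G ρ h, map_zero] at h3
  rw [Polynomial.eval_map]
  exact (mul_eq_zero.1 h3.symm).resolve_left (pow_ne_zero _ hx')

theorem map_inj {f g : ℚ[X][X]} (h : f.map (algebraMap ℚ[X] (RatFunc ℚ)) =
    g.map (algebraMap ℚ[X] (RatFunc ℚ))) : f = g :=
  Polynomial.map_injective _ (IsFractionRing.injective ℚ[X] (RatFunc ℚ)) h

theorem factor (G : ℚ[X][X]) (hG : G ≠ 0) (ρ : RatFunc ℚ) (h : IsRt G ρ) :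
    ∃ (b : ℚ[X]) (G1 : ℚ[X][X]), b ≠ 0 ∧ G1 ≠ 0 ∧ G1.natDegree < G.natDegree ∧
      C b * G = (C ρ.denom * X - C ρ.num) * G1 := by
  obtain ⟨g1, hg1⟩ := Polynomial.dvd_iff_isRoot.2 (show IsRoot _ ρ from h)
  obtain ⟨b, hb, hb2⟩ := IsLocalization.integerNormalization_spec (nonZeroDivisors ℚ[X]) g1
  have hb0 : b ≠ 0 := nonZeroDivisors.ne_zero hb
  obtain ⟨G1, hG1⟩ : ∃ G1, G1 = IsLocalization.integerNormalization (nonZeroDivisors ℚ[X]) g1 :=
    ⟨_, rfl⟩
  rw [← hG1] at hb2
  have hb3 : G1.map (algebraMap ℚ[X] (RatFunc ℚ)) = C (algebraMap ℚ[X] (RatFunc ℚ) b) * g1 := by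
    rw [hb2, ← Polynomial.smul_eq_C_mul, algebraMap_smul]
  have heq : C (ρ.denom * b) * G = (C ρ.denom * X - C ρ.num) * G1 := by
    apply map_inj
    rw [Polynomial.map_mul, Polynomial.map_mul, hb3, hg1, Polynomial.map_sub, Polynomial.map_mul,
      Polynomial.map_C, Polynomial.map_C, Polynomial.map_C, Polynomial.map_X, algebraMap_num,
      map_mul, C_mul, C_mul]
    ring
  have hdb : ρ.denom * b ≠ 0 := mul_ne_zero ρ.denom_ne_zero hb0
  have hG10 : G1 ≠ 0 := by
    rintro rfl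
    rw [mul_zero, mul_eq_zero, C_eq_zero] at heq
    exact heq.elim hdb hG
  refine ⟨ρ.denom * b, G1, hdb, hG10, ?_, heq⟩
  have hlin : (C ρ.denom * X - C ρ.num : ℚ[X][X]).natDegree = 1 := by
    rw [sub_eq_add_neg, ← C_neg]
    exact natDegree_linear ρ.denom_ne_zero
  have hlin0 : (C ρ.denom * X - C ρ.num : ℚ[X][X]) ≠ 0 := by
    intro h0
    rw [h0, natDegree_zero] at hlin
    exact absurd hlin (by norm_num)
  have h1 := congrArg natDegree heq
  rw [natDegree_C_mul hdb, natDegree_mul hlin0 hG10, hlin] at h1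
  omega

theorem eval_pair (x z : ℚ) (A B : ℚ[X][X]) :
    ((A * B).map (evalRingHom x)).eval z =
      (A.map (evalRingHom x)).eval z * (B.map (evalRingHom x)).eval z := by
  rw [Polynomial.map_mul, eval_mul]

/-- Outside a negligible set all rational roots of `G(x, Y)` are values of rational functions which
are roots of `G`. -/
theorem roots_cover (G : ℚ[X][X]) (hG : G ≠ 0) :
    ∃ (T : Finset (RatFunc ℚ)) (E : Set ℚ), (∀ ρ ∈ T, IsRt G ρ) ∧ Negl E ∧
      ∀ x, x ∉ E → ∀ z : ℚ, (G.map (evalRingHom x)).eval z = 0 → ∃ ρ ∈ T, z = val ρ x := by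
  classical
  induction hn : G.natDegree using Nat.strong_induction_on generalizing G with
  | _ n ih =>
    by_cases hr : Rootless G
    · refine ⟨∅, rootSet G, by simp, av_rootSet G hr, fun x hx z hz => ?_⟩
      exact absurd ⟨z, hz⟩ hx
    · unfold Rootless at hr
      push Not at hr
      obtain ⟨ρ, hρ⟩ := hr
      obtain ⟨b, G1, hb, hG1, hdeg, heq⟩ := factor G hG ρ hρ
      obtain ⟨T, E, hT, hE, hcov⟩ := ih G1.natDegree (hn ▸ hdeg) G1 hG1 rfl
      have hdfin : {x : ℚ | ρ.denom.eval x = 0}.Finite :=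
        Polynomial.finite_setOfPred_isRoot ρ.denom_ne_zero
      refine ⟨insert ρ T, E ∪ {x | ρ.denom.eval x = 0}, fun σ hσ => ?_,
        hE.union (Negl.of_finite hdfin), fun x hx z hz => ?_⟩
      · rcases Finset.mem_insert.1 hσ with rfl | hσT
        · exact hρ
        · have h1 := congrArg (fun f : ℚ[X][X] =>
            (f.map (algebraMap ℚ[X] (RatFunc ℚ))).eval σ) heq
          have h2 : (G1.map (algebraMap ℚ[X] (RatFunc ℚ))).eval σ = 0 := hT σ hσT
          simp only [Polynomial.map_mul, eval_mul, h2, mul_zero, Polynomial.map_C, eval_C,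
            mul_eq_zero] at h1
          refine h1.resolve_left ?_
          rw [map_eq_zero_iff _ (IsFractionRing.injective ℚ[X] (RatFunc ℚ))]
          exact hb
      · have h1 := congrArg (fun f : ℚ[X][X] => (f.map (evalRingHom x)).eval z) heq
        simp only [eval_pair, hz, mul_zero] at h1
        rcases mul_eq_zero.1 h1.symm with h2 | h2
        · refine ⟨ρ, Finset.mem_insert_self ρ T, ?_⟩
          simp only [Polynomial.map_sub, Polynomial.map_mul, Polynomial.map_C, Polynomial.map_X,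
            eval_sub, eval_mul, eval_C, eval_X, coe_evalRingHom] at h2
          have h3 : ρ.denom.eval x ≠ 0 := fun h0 => hx (Or.inr h0)
          unfold val
          rw [eq_div_iff h3]
          linarith
        · obtain ⟨σ, hσ, hz'⟩ := hcov x (fun h => hx (Or.inl h)) z h2
          exact ⟨σ, Finset.mem_insert_of_mem hσ, hz'⟩

end Pool.Agent.H105.TP
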