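import Pool.Agent.H105.TP.Av

/-!
# Thin sets of rational numbers
-/

set_option autoImplicit false

namespace Pool.Agent.H105.TP

open Polynomial Pool.Agent.TH766.HP Pool.Agent.Y214.HB

/-- the polynomial `g(X, Y)` in `Y` over `ℚ[X]` has no root in the field `ℚ(X)` -/
def Rootless (g : ℚ[X][X]) : Prop :=
  ∀ r : RatFunc ℚ, (g.map (algebraMap ℚ[X] (RatFunc ℚ))).eval r ≠ 0

/-- the rational numbers `x` for which `g(x, Y)` has a rational root -/
def rootSet (g : ℚ[X][X]) : Set ℚ := {x | ∃ z : ℚ, (g.map (evalRingHom x)).eval z = 0}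

/-- Thin sets of rational numbers, in the sense of Serre. -/
def Thin (S : Set ℚ) : Prop :=
  ∃ G : Finset ℚ[X][X], (∀ g ∈ G, Rootless g) ∧ {x ∈ S | ∀ g ∈ G, x ∉ rootSet g}.Finite

/-- integral polynomials as rational polynomials -/
noncomputable def th : MvPolynomial (Fin 1) ℤ →+* ℚ[X] :=
  MvPolynomial.eval₂Hom (Int.castRingHom ℚ[X]) (fun _ => X)

theorem eval_th (x : ℚ) : (evalRingHom x).comp th = evQ (n := 0) (fun _ => x) := by
  apply MvPolynomial.ringHom_ext
  · intro c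
    simp [th, evQ]
  · intro i
    simp [th, evQ]

theorem th_injective : Function.Injective th := by
  rw [injective_iff_map_eq_zero]
  intro p hp
  apply MvPolynomial.funext
  intro x
  rw [map_zero]
  have h1 := congrArg (evalRingHom ((x 0 : ℤ) : ℚ)) hp
  rw [map_zero, ← RingHom.comp_apply, eval_th] at h1
  have h2 : (evQ (n := 0) (fun _ => ((x 0 : ℤ) : ℚ))) = (Int.castRingHom ℚ).comp
      (MvPolynomial.eval x) := by
    apply MvPolynomial.ringHom_ext
    · intro c
      simp [evQ]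
    · intro i
      have hi : i = 0 := by
        ext
        have := i.isLt
        simp at this ⊢
      subst hi
      simp [evQ]
  rw [h2, RingHom.comp_apply] at h1
  exact Int.cast_eq_zero.1 h1

theorem clear1 (a : ℚ[X]) : ∃ N : ℕ, N ≠ 0 ∧ ∃ p : MvPolynomial (Fin 1) ℤ,
    th p = C (N : ℚ) * a := by
  induction a using Polynomial.induction_on' with
  | add p q hp hq =>
    obtain ⟨N, hN, P, hP⟩ := hp
    obtain ⟨M, hM, R, hR⟩ := hq
    refine ⟨N * M, mul_ne_zero hN hM, MvPolynomial.C (M : ℤ) * P + MvPolynomial.C (N : ℤ) * R, ?_⟩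
    have h1 : ∀ k : ℕ, th (MvPolynomial.C (k : ℤ)) = C (k : ℚ) := fun k => by simp [th]
    rw [map_add, map_mul, map_mul, h1, h1, hP, hR, Nat.cast_mul, C_mul]
    ring
  | monomial n c =>
    refine ⟨c.den, c.den_nz, MvPolynomial.C c.num * MvPolynomial.X 0 ^ n, ?_⟩
    have h1 : th (MvPolynomial.C c.num) = C (c.num : ℚ) := by simp [th]
    have h2 : th (MvPolynomial.X 0) = X := by simp [th]
    rw [map_mul, map_pow, h1, h2, C_mul_monomial, C_mul_X_pow_eq_monomial]
    congr 1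
    rw [mul_comm]
    exact (Rat.mul_den_eq_num c).symm

theorem clear2 (g : ℚ[X][X]) : ∃ N : ℕ, N ≠ 0 ∧ ∃ P : (MvPolynomial (Fin 1) ℤ)[X],
    P.map th = C (C (N : ℚ)) * g := by
  induction g using Polynomial.induction_on' with
  | add p q hp hq =>
    obtain ⟨N, hN, P, hP⟩ := hp
    obtain ⟨M, hM, R, hR⟩ := hq
    refine ⟨N * M, mul_ne_zero hN hM, C (MvPolynomial.C (M : ℤ)) * P +
      C (MvPolynomial.C (N : ℤ)) * R, ?_⟩
    have h1 : ∀ k : ℕ, th (MvPolynomial.C (k : ℤ)) = C (k : ℚ) := fun k => by simp [th]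
    rw [Polynomial.map_add, Polynomial.map_mul, Polynomial.map_mul, Polynomial.map_C,
      Polynomial.map_C, h1, h1, hP, hR, Nat.cast_mul, C_mul, C_mul]
    ring
  | monomial n a =>
    obtain ⟨N, hN, p, hp⟩ := clear1 a
    refine ⟨N, hN, monomial n p, ?_⟩
    rw [map_monomial, hp, C_mul_monomial]

theorem av_noRoot (P : (MvPolynomial (Fin 1) ℤ)[X]) (hP : NoRoot (n := 0) P) :
    Negl {x : ℚ | ∃ w : ℚ, (P.map (evQ (n := 0) fun _ => x)).eval w = 0} := by
  obtain ⟨k, Q, c, hprod, hQ⟩ := Pool.Agent.Y945.HB.t_FAC 0 P hP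
  have hbase : ∀ i, Base (n := 0) (Q i) := fun i =>
    Pool.Agent.Y932.HB.t_BASE Pool.Agent.Y155.HB.t_SPEC Pool.Agent.Y972.HB.t_NR 0 (Q i) (hQ i)
  refine Negl.mono ?_ (Negl.biUnion Finset.univ (fun i : Fin k =>
    {x : ℚ | ∃ w : ℚ, ((Q i).map (evQ (n := 0) fun _ => x)).eval w = 0})
    fun i _ => av_base (Q i) (hbase i))
  rintro x ⟨w, hw⟩
  have h1 : ((∏ i, Q i).map (evQ (n := 0) fun _ => x)).eval w = 0 := by
    rw [← hprod, Polynomial.map_mul, eval_mul, hw, mul_zero]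
  rw [Polynomial.map_prod, eval_prod, Finset.prod_eq_zero_iff] at h1
  obtain ⟨i, hi, h2⟩ := h1
  exact Set.mem_biUnion hi ⟨w, h2⟩

theorem root_transfer {A B K L : Type} [CommRing A] [CommRing B] [Field K] [Field L]
    (α : A →+* K) (β : B →+* L) (θ : A →+* B) (ψ : K →+* L) (h : ψ.comp α = β.comp θ)
    (P : A[X]) (g : B[X]) (c : B) (hP : P.map θ = C c * g) (r : K) (hr : (P.map α).eval r = 0) :
    β c * (g.map β).eval (ψ r) = 0 := by
  have h1 : ψ ((P.map α).eval r) = 0 := by rw [hr, map_zero]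
  rw [← Polynomial.eval₂_at_apply, Polynomial.eval₂_map, h, ← Polynomial.eval₂_map, hP,
    Polynomial.eval₂_mul, Polynomial.eval₂_C] at h1
  rw [Polynomial.eval_map]
  exact h1

theorem exists_lift {A B : Type} [CommRing A] [IsDomain A] [CommRing B] [IsDomain B]
    (θ : A →+* B) (hθ : Function.Injective θ) (L : Type) [Field L] [Algebra B L]
    [IsFractionRing B L] : ∃ ψ : FractionRing A →+* L,
      ψ.comp (algebraMap A (FractionRing A)) = (algebraMap B L).comp θ := by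
  have hinj : Function.Injective ((algebraMap B L).comp θ) :=
    (IsFractionRing.injective B L).comp hθ
  exact ⟨IsFractionRing.lift hinj, RingHom.ext fun x => IsFractionRing.lift_algebraMap hinj x⟩

theorem noRoot_of (g : ℚ[X][X]) (hg : Rootless g) (N : ℕ) (hN : N ≠ 0)
    (P : (MvPolynomial (Fin 1) ℤ)[X]) (hP : P.map th = C (C (N : ℚ)) * g) :
    NoRoot (n := 0) P := by
  obtain ⟨ψ, hψ⟩ := exists_lift th th_injective (RatFunc ℚ)
  intro r hr
  have h1 := root_transfer (algebraMap (MvPolynomial (Fin 1) ℤ)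
    (FractionRing (MvPolynomial (Fin 1) ℤ))) (algebraMap ℚ[X] (RatFunc ℚ)) th ψ hψ P g
    (C (N : ℚ)) hP r hr
  refine hg (ψ r) ((mul_eq_zero.1 h1).resolve_left ?_)
  intro h2
  rw [map_eq_zero_iff _ (IsFractionRing.injective ℚ[X] (RatFunc ℚ)), C_eq_zero] at h2
  exact hN (by exact_mod_cast h2)

theorem av_rootSet (g : ℚ[X][X]) (hg : Rootless g) : Negl (rootSet g) := by
  obtain ⟨N, hN, P, hP⟩ := clear2 g
  refine Negl.mono ?_ (av_noRoot P (noRoot_of g hg N hN P hP))
  rintro x ⟨z, hz⟩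
  refine ⟨z, ?_⟩
  rw [← eval_th, ← Polynomial.map_map, hP, Polynomial.map_mul, eval_mul, hz, mul_zero]

theorem Thin.negl {S : Set ℚ} (h : Thin S) : Negl S := by
  obtain ⟨G, hG, hfin⟩ := h
  refine Negl.mono ?_ ((Negl.of_finite hfin).union (Negl.biUnion G rootSet fun g hg =>
    av_rootSet g (hG g hg)))
  intro x hx
  by_cases hc : ∀ g ∈ G, x ∉ rootSet g
  · exact Or.inl ⟨hx, hc⟩
  · push Not at hc
    obtain ⟨g, hg, hxg⟩ := hc
    exact Or.inr (Set.mem_biUnion hg hxg)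

theorem Thin.mono {S S' : Set ℚ} (h : S ⊆ S') (hS : Thin S') : Thin S := by
  obtain ⟨G, hG, hfin⟩ := hS
  exact ⟨G, hG, hfin.subset fun x hx => ⟨h hx.1, hx.2⟩⟩

theorem Thin.of_finite {S : Set ℚ} (h : S.Finite) : Thin S :=
  ⟨∅, by simp, h.subset fun x hx => hx.1⟩

theorem Thin.union {S S' : Set ℚ} (hS : Thin S) (hS' : Thin S') : Thin (S ∪ S') := by
  classical
  obtain ⟨G, hG, hfin⟩ := hS
  obtain ⟨G', hG', hfin'⟩ := hS'
  refine ⟨G ∪ G', fun g hg => ?_, (hfin.union hfin').subset ?_⟩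
  · rcases Finset.mem_union.1 hg with h | h
    · exact hG g h
    · exact hG' g h
  · rintro x ⟨hx | hx, hno⟩
    · exact Or.inl ⟨hx, fun g hg => hno g (Finset.mem_union_left _ hg)⟩
    · exact Or.inr ⟨hx, fun g hg => hno g (Finset.mem_union_right _ hg)⟩

end Pool.Agent.H105.TP
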