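import Pool.Agent.H105.TP.Core
import Pool.Agent.H105.TP.Thin
import Pool.Agent.H105.TP.Gen2
import Pool.Agent.H105.TP.Root
import Pool.Agent.TH766.HP.Two

/-!
# Sets determined by local conditions on residue classes
-/

set_option autoImplicit false

namespace Pool.Agent.H105.TP

open Polynomial Pool.Agent.H527R9.CC Pool.Agent.TH766.HP

/-- Every residue class contains a residue class on which `A` is determined by finitely many sets
given by local conditions. -/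
def Det (Q : Set ℕ) (A : Set ℚ) : Prop := ∀ a1 b1 : ℤ, 0 < b1 →
  ∃ (a0 b0 : ℤ), 0 < b0 ∧ b1 ∣ b0 ∧ b1 ∣ a0 - a1 ∧ ∃ (r : ℕ) (S : Fin r → Set ℚ),
    (∀ i, NiceOn Q a0 b0 (S i)) ∧ ∀ x y : ℚ, x ∈ Cls a0 b0 → y ∈ Cls a0 b0 →
      (∀ i, (x ∈ S i ↔ y ∈ S i)) → (x ∈ A ↔ y ∈ A)

theorem Det.compl {Q : Set ℕ} {D : Set ℚ} (h : Det Q D) : Det Q Dᶜ := by
  intro a1 b1 hb1
  obtain ⟨a0, b0, hb0, h1, h2, r, S, hS, h3⟩ := h a1 b1 hb1
  exact ⟨a0, b0, hb0, h1, h2, r, S, hS, fun x y hx hy h => not_congr (h3 x y hx hy h)⟩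

theorem Det.inter {Q : Set ℕ} {D E : Set ℚ} (hD : Det Q D) (hE : Det Q E) : Det Q (D ∩ E) := by
  intro a1 b1 hb1
  obtain ⟨a0, b0, hb0, h1, h2, r, S, hS, h3⟩ := hD a1 b1 hb1
  obtain ⟨a0', b0', hb0', h1', h2', r', S', hS', h3'⟩ := hE a0 b0 hb0
  have hsub := Cls_mono hb0' h1' h2'
  refine ⟨a0', b0', hb0', h1.trans h1', ?_, r + r', Fin.append S S', fun i => ?_,
    fun x y hx hy h => ?_⟩
  · have : a0' - a1 = (a0' - a0) + (a0 - a1) := by ring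
    rw [this]
    exact dvd_add (h1.trans h2') h2
  · refine Fin.addCases (fun i => ?_) (fun i => ?_) i
    · rw [Fin.append_left]; exact (hS i).mono hsub
    · rw [Fin.append_right]; exact hS' i
  · refine and_congr (h3 x y (hsub hx) (hsub hy) fun i => ?_) (h3' x y hx hy fun i => ?_)
    · have := h (Fin.castAdd r' i)
      rwa [Fin.append_left] at this
    · have := h (Fin.natAdd r i)
      rwa [Fin.append_right] at this

/-- a set which is given by local conditions on a subclass of every class -/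
theorem Det.of_nice {Q : Set ℕ} {D : Set ℚ} (h : ∀ a1 b1 : ℤ, 0 < b1 →
    ∃ (a0 b0 : ℤ), 0 < b0 ∧ b1 ∣ b0 ∧ b1 ∣ a0 - a1 ∧ NiceOn Q a0 b0 D) : Det Q D := by
  intro a1 b1 hb1
  obtain ⟨a0, b0, hb0, h1, h2, h3⟩ := h a1 b1 hb1
  exact ⟨a0, b0, hb0, h1, h2, 1, fun _ => D, fun _ => h3, fun x y _ _ h => h 0⟩

theorem NiceOn.of_finite {Q : Set ℕ} {a0 b0 : ℤ} {E : Set ℚ} (hfin : (E ∩ Cls a0 b0).Finite) :
    NiceOn Q a0 b0 E := by
  refine ⟨∅, fun _ => Set.univ, E ∩ Cls a0 b0, 1, 0, ∅, hfin, one_ne_zero,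
    by simp, ?_, ?_, ?_, ?_⟩
  · intro x hxC hx
    have : x ∉ E := fun hE => hx ⟨hE, hxC⟩
    simp [this]
  · intro x _ _
    exact ⟨1, 1, one_pos, one_pos, fun y _ _ => by simp⟩
  · intro p _ x _ _ hx
    exact absurd (Set.mem_univ x) hx
  · intro p _ _ _ _ M _ _ _ n m _
    exact ⟨0, fun k _ _ _ => Set.mem_univ _⟩

theorem Det.of_negl {Q : Set ℕ} {E : Set ℚ} (h : Negl E) : Det Q E := by
  refine Det.of_nice fun a1 b1 hb1 => ?_
  obtain ⟨a0, b0, hb0, h1, h2, hfin⟩ := h a1 b1 hb1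
  exact ⟨a0, b0, hb0, h1, h2, NiceOn.of_finite hfin⟩

theorem Det.of_negl_compl {Q : Set ℕ} {E : Set ℚ} (h : Negl Eᶜ) : Det Q E := by
  have h1 := (Det.of_negl (Q := Q) h).compl
  rwa [compl_compl] at h1

/-- Sets given by local conditions at all places which, at infinitely many primes of `Q`, are
satisfied near infinity. -/
theorem NiceOn.loc {Q : Set ℕ} {a0 b0 : ℤ} (E : Set ℚ) (hfin : (E ∩ Cls a0 b0).Finite)
    (R : Set ℚ) (P : ℕ → Set ℚ)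
    (hR : ∀ x, x ∉ E → ∃ (ε : ℚ) (m : ℤ), 0 < ε ∧ 0 < m ∧ ∀ y : ℚ, |y - x| < ε →
      y - x ∈ Cls 0 m → (y ∈ R ↔ x ∈ R))
    (hP : ∀ p : ℕ, p.Prime → ∀ x, x ∉ E → x ∉ P p → ∃ ε : ℚ, 0 < ε ∧
      ∀ y : ℚ, padicNorm p (y - x) < ε → y ∉ P p)
    (L N : ℕ) (hL : L ≠ 0) (H : Finset ℤ[X]) (hH : ∀ h ∈ H, 0 < h.natDegree)
    (hQ : ∀ (p : ℕ) [Fact p.Prime], p ∈ Q → N < p → (∀ h ∈ H, ∃ t : ℚ_[p], aeval t h = 0) →
      ∃ c : ℚ, ∀ z : ℚ, c < padicNorm p z → z ^ L ∈ P p) :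
    NiceOn Q a0 b0 {x | x ∈ R ∧ ∀ p : ℕ, p.Prime → x ∈ P p} := by
  refine ⟨R, P, E ∩ Cls a0 b0, L, N, H, hfin, hL, hH, ?_, ?_, ?_, ?_⟩
  · intro x _ _
    exact Iff.rfl
  · intro x hxC hx
    exact hR x fun hxE => hx ⟨hxE, hxC⟩
  · intro p hp x hxC hx hxP
    exact hP p hp x (fun hxE => hx ⟨hxE, hxC⟩) hxP
  · intro p hpF hpQ hpN hroot M hM hLM _ n m hm
    obtain ⟨c, hc⟩ := hQ p hpQ hpN hroot
    obtain ⟨K, hK⟩ := approx p L c M hM hLM n m hm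
    refine ⟨K, fun k hk hxC hxF => ?_⟩
    by_contra hnot
    obtain ⟨ε, hε, h3⟩ := hP p hpF.out _ (fun hxE => hxF ⟨hxE, hxC⟩) hnot
    obtain ⟨z, hz1, hz2⟩ := hK k hk ε hε
    exact h3 (z ^ L) hz2 (hc z hz1)

theorem Det.loc {Q : Set ℕ} (E : Set ℚ) (hE : Negl E) (R : Set ℚ) (P : ℕ → Set ℚ)
    (hR : ∀ x, x ∉ E → ∃ (ε : ℚ) (m : ℤ), 0 < ε ∧ 0 < m ∧ ∀ y : ℚ, |y - x| < ε →
      y - x ∈ Cls 0 m → (y ∈ R ↔ x ∈ R))
    (hP : ∀ p : ℕ, p.Prime → ∀ x, x ∉ E → x ∉ P p → ∃ ε : ℚ, 0 < ε ∧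
      ∀ y : ℚ, padicNorm p (y - x) < ε → y ∉ P p)
    (L N : ℕ) (hL : L ≠ 0) (H : Finset ℤ[X]) (hH : ∀ h ∈ H, 0 < h.natDegree)
    (hQ : ∀ (p : ℕ) [Fact p.Prime], p ∈ Q → N < p → (∀ h ∈ H, ∃ t : ℚ_[p], aeval t h = 0) →
      ∃ c : ℚ, ∀ z : ℚ, c < padicNorm p z → z ^ L ∈ P p) :
    Det Q {x | x ∈ R ∧ ∀ p : ℕ, p.Prime → x ∈ P p} := by
  refine Det.of_nice fun a1 b1 hb1 => ?_
  obtain ⟨a0, b0, hb0, h1, h2, hfin⟩ := hE a1 b1 hb1
  exact ⟨a0, b0, hb0, h1, h2, NiceOn.loc E hfin R P hR hP L N hL H hH hQ⟩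

theorem aeval_cast_ne {k : Type} [Field k] [CharZero k] [Algebra ℚ k] (D : ℚ[X]) (x : ℚ)
    (h : aeval x D ≠ 0) : aeval ((x : ℚ) : k) D ≠ 0 := by
  have h1 := Polynomial.aeval_algebraMap_apply k x D
  rw [eq_ratCast] at h1
  rw [h1, Ne, map_eq_zero]
  exact h

/-- The set of the parameters for which the fibre is soluble at the places of a set `v` of primes
and, if `b` is true, at the real place. -/
theorem Det.sol {Q : Set ℕ} {n r : ℕ} (F : Fin r → MvPolynomial (Fin n) ℚ[X]) (hF : Homog F)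
    (b : Prop) (v : Set ℕ) : Det Q {x : ℚ | (b → HasPoint ℝ F (x : ℝ)) ∧
      ∀ (p : ℕ) [Fact p.Prime], p ∈ v → HasPoint ℚ_[p] F (x : ℚ_[p])} := by
  rcases gen2 n r F hF with ⟨D, hD, hno⟩ | ⟨g, E, hg, hE, hgen⟩
  · by_cases hb : b
    · refine Det.of_negl (Negl.of_finite ((D.rootSet_finite ℚ).subset ?_))
      rintro x ⟨hreal, -⟩
      rw [Polynomial.mem_rootSet]
      refine ⟨hD, ?_⟩
      by_contra hne
      exact hno ℝ (x : ℝ) (aeval_cast_ne D x hne) (hreal hb)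
    by_cases hv : ∃ (p : ℕ) (_ : Fact p.Prime), p ∈ v
    · obtain ⟨p, hp, hpv⟩ := hv
      refine Det.of_negl (Negl.of_finite ((D.rootSet_finite ℚ).subset ?_))
      rintro x ⟨-, hpad⟩
      rw [Polynomial.mem_rootSet]
      refine ⟨hD, ?_⟩
      by_contra hne
      exact hno ℚ_[p] (x : ℚ_[p]) (aeval_cast_ne D x hne) (hpad p hpv)
    · refine Det.of_negl_compl (Negl.of_finite ?_)
      convert Set.finite_empty (α := ℚ) using 1
      rw [Set.compl_empty_iff, Set.eq_univ_iff_forall]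
      intro x
      exact ⟨fun h => absurd h hb, fun p hp hpv => absurd ⟨p, hp, hpv⟩ hv⟩
  · obtain ⟨M, h, hM, hh, hpui⟩ := pui g hg
    obtain ⟨B, hB, hreal⟩ := real n r F
    have heq : {x : ℚ | (b → HasPoint ℝ F (x : ℝ)) ∧
        ∀ (p : ℕ) [Fact p.Prime], p ∈ v → HasPoint ℚ_[p] F (x : ℚ_[p])} =
        {x | x ∈ {x : ℚ | b → HasPoint ℝ F (x : ℝ)} ∧
        ∀ p : ℕ, p.Prime → x ∈ {x : ℚ | p ∈ v → ∀ [Fact p.Prime], HasPoint ℚ_[p] F (x : ℚ_[p])}} := by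
      ext x
      constructor
      · rintro ⟨h1, h2⟩
        exact ⟨h1, fun p hp hpv => fun {_} => h2 p hpv⟩
      · rintro ⟨h1, h2⟩
        exact ⟨h1, fun p hp hpv => h2 p hp.out hpv⟩
    rw [heq]
    refine Det.loc B (Negl.of_finite hB) _ _ ?_ ?_ M 0 hM {h} (by simpa using hh) ?_
    · intro x hx
      obtain ⟨ε, hε, h1⟩ := hreal x hx
      exact ⟨ε, 1, hε, one_pos, fun y hy _ => imp_congr_right fun _ => h1 y hy⟩
    · intro p hp x _ hxP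
      have hpF : Fact p.Prime := ⟨hp⟩
      have hxP' : ¬ (p ∈ v → ∀ [Fact p.Prime], HasPoint ℚ_[p] F (x : ℚ_[p])) := hxP
      push Not at hxP'
      obtain ⟨hpv, h1⟩ := hxP'
      have h1 : ¬ HasPoint ℚ_[p] F (x : ℚ_[p]) := by
        intro h1
        exact hxP fun _ => fun {_} => h1
      obtain ⟨ε, hε, h4⟩ := comp n r F hF p x h1
      exact ⟨ε, hε, fun y hy hyP => h4 y hy (@hyP hpv hpF)⟩
    · intro p hpF _ _ hroot
      obtain ⟨c, hc⟩ := hpui p (hroot h (Finset.mem_singleton_self h))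
      obtain ⟨c', hc'⟩ := eval_ne_large p E hE
      obtain ⟨c'', hc''⟩ := exists_rat_gt (max (max c c') 1)
      refine ⟨c'', fun z hz => fun _ => fun {_} => ?_⟩
      have hzn : (c'' : ℝ) < ‖(z : ℚ_[p])‖ := by
        rw [Padic.eq_padicNorm]
        exact_mod_cast hz
      have h1 : 1 < ‖(z : ℚ_[p])‖ := ((le_max_right _ _).trans_lt hc'').trans hzn
      have h2 : c < ‖(z : ℚ_[p])‖ :=
        (((le_max_left _ _).trans (le_max_left _ _)).trans_lt hc'').trans hzn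
      have h3 : c' < ‖(z : ℚ_[p])‖ :=
        (((le_max_right _ _).trans (le_max_left _ _)).trans_lt hc'').trans hzn
      obtain ⟨t, ht⟩ := hc z h2
      have h4 : (((z ^ M : ℚ)) : ℚ_[p]) = (z : ℚ_[p]) ^ M := by push_cast; rfl
      rw [h4]
      refine hgen ℚ_[p] _ t (hc' _ (h3.trans_le ?_)) ht
      rw [norm_pow]
      calc ‖(z : ℚ_[p])‖ = ‖(z : ℚ_[p])‖ ^ 1 := (pow_one _).symm
        _ ≤ _ := pow_le_pow_right₀ h1.le (Nat.one_le_iff_ne_zero.2 hM)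

/-! ### Algebraic quantifiers -/

theorem Det.union {Q : Set ℕ} {D E : Set ℚ} (hD : Det Q D) (hE : Det Q E) : Det Q (D ∪ E) := by
  have h := (hD.compl.inter hE.compl).compl
  rwa [← Set.compl_union, compl_compl] at h

theorem Det.congr {Q : Set ℕ} {A B E : Set ℚ} (hE : Negl E) (hB : Det Q B)
    (h : ∀ x, x ∉ E → (x ∈ A ↔ x ∈ B)) : Det Q A := by
  have h1 : A = (B ∩ Eᶜ) ∪ (A ∩ E) := by
    ext x
    by_cases hx : x ∈ E
    · simp [hx]
    · simp [hx, h x hx]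
  rw [h1]
  exact (hB.inter (Det.of_negl hE).compl).union (Det.of_negl (hE.mono Set.inter_subset_right))

theorem Det.biUnion {Q : Set ℕ} {ι : Type*} (s : Finset ι) (A : ι → Set ℚ)
    (h : ∀ i ∈ s, Det Q (A i)) : Det Q (⋃ i ∈ s, A i) := by
  classical
  induction s using Finset.induction_on with
  | empty => simpa using Det.of_negl (Q := Q) (Negl.of_finite Set.finite_empty)
  | insert i s _ ih =>
    have : (⋃ j ∈ insert i s, A j) = A i ∪ ⋃ j ∈ s, A j := by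
      simp
    rw [this]
    exact (h i (Finset.mem_insert_self i s)).union
      (ih fun j hj => h j (Finset.mem_insert_of_mem hj))

theorem Det.ex {Q : Set ℕ} (G : ℚ[X][X]) (hG : G ≠ 0) (D : Set (ℚ × ℚ))
    (h : ∀ ρ : RatFunc ℚ, IsRt G ρ → Det Q {x | (x, val ρ x) ∈ D}) :
    Det Q {x | ∃ z : ℚ, (G.map (evalRingHom x)).eval z = 0 ∧ (x, z) ∈ D} := by
  obtain ⟨T, E, hT, hE, hcov⟩ := roots_cover G hG
  have hdfin : ∀ ρ : RatFunc ℚ, {x : ℚ | ρ.denom.eval x = 0}.Finite := fun ρ =>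
    Polynomial.finite_setOfPred_isRoot ρ.denom_ne_zero
  refine Det.congr (E := E ∪ ⋃ ρ ∈ T, {x : ℚ | ρ.denom.eval x = 0})
    (hE.union (Negl.biUnion T _ fun ρ _ => Negl.of_finite (hdfin ρ)))
    (Det.biUnion T (fun ρ => {x | (x, val ρ x) ∈ D}) fun ρ hρ => h ρ (hT ρ hρ)) ?_
  intro x hx
  constructor
  · rintro ⟨z, hz, hD⟩
    obtain ⟨ρ, hρ, rfl⟩ := hcov x (fun hxE => hx (Or.inl hxE)) z hz
    exact Set.mem_biUnion hρ hD
  · intro hx'
    obtain ⟨ρ, hρ, hD⟩ := Set.mem_iUnion₂.1 hx'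
    refine ⟨val ρ x, root_val G ρ (hT ρ hρ) x fun h0 => ?_, hD⟩
    exact hx (Or.inr (Set.mem_biUnion hρ h0))

/-- A set determined by local conditions on residue classes, all of whose elements are integers,
misses all integers of a residue class inside any given residue class. -/
theorem Det.main {Q : Set ℕ} (hQ : Pool.Agent.TH766.HP.Rich Q) {A : Set ℚ} (hA : Det Q A)
    (hAZ : A ⊆ Set.range fun n : ℤ => (n : ℚ)) (a1 b1 : ℤ) (hb1 : 0 < b1) :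
    ∃ a b : ℤ, 0 < b ∧ b1 ∣ b ∧ b1 ∣ a - a1 ∧ ∀ n : ℤ, b ∣ n - a → (n : ℚ) ∉ A := by
  by_contra hcon
  push Not at hcon
  obtain ⟨a0, b0, hb0, h1, h2, r, S, hS, hdet⟩ := hA a1 b1 hb1
  obtain ⟨x, hxC, hx, y, ⟨hyA, hyC⟩, hyx⟩ := core Q hQ a0 b0 hb0 r S hS
    {v | ∃ y, (y ∈ A ∧ y ∈ Cls a0 b0) ∧ (fun i => y ∈ S i) = v}
    (fun a b hb h3 h4 => by
      obtain ⟨n, hn1, hn2⟩ := hcon a b hb (h1.trans h3) (by
        have : a - a1 = (a - a0) + (a0 - a1) := by ring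
        rw [this]
        exact dvd_add (h1.trans h4) h2)
      refine ⟨n, hn1, n, ⟨hn2, int_mem_Cls ?_⟩, rfl⟩
      have : n - a0 = (n - a) + (a - a0) := by ring
      rw [this]
      exact dvd_add (h3.trans hn1) h4)
  have hxA : x ∈ A := (hdet x y hxC hyC fun i => (congrFun hyx i).to_iff.symm).2 hyA
  obtain ⟨l, hl⟩ := hAZ hxA
  exact hx l hl.symm

end Pool.Agent.H105.TP
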