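import Pool.Agent.H105.TP.Manin

/-!
# A Boolean algebra of sets of rational numbers given by local conditions
-/

set_option autoImplicit false

namespace Pool.Agent.H105.TP

open Polynomial Pool.Agent.H527R9.CC Pool.Agent.TH766.HP

/-- The smallest Boolean algebra of sets of rational numbers which contains

* the negligible sets;
* for every family `V` of closed subschemes of a projective space over the line, and every set of
  places (a set `v` of primes and possibly the real place), the set of the `x` for which `V_x` has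
  points over the completions at these places;
* the sets which are open and closed outside a negligible set in the product topology of `ℝ` and
  all the `ℚ_p` (for example local conditions at finitely many places);
* the sets `{x | ∀ p, x ∈ P p}` where `P p` is for every prime `p` a `p`-adic condition, closed
  outside one negligible set, such that `NearInfinity Q P` holds (for example `P p = ℚ` for all
  `p ∈ Q`);

and is closed under algebraic quantifiers: if `G(X, Y) ≠ 0` and if for all roots `ρ ∈ ℚ(X)` of `G`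
the set `{x | D(x, ρ(x))}` is in the algebra, then `{x | ∃ z ∈ ℚ, G(x, z) = 0 ∧ D(x, z)}` is in the
algebra. -/
inductive LineAlg (Q : Set ℕ) : Set ℚ → Prop
  | negl (E : Set ℚ) (h : Negl E) : LineAlg Q E
  | sol {n r : ℕ} (F : Fin r → MvPolynomial (Fin n) ℚ[X]) (hF : Homog F) (b : Prop) (v : Set ℕ) :
      LineAlg Q {x : ℚ | (b → HasPoint ℝ F (x : ℝ)) ∧
        ∀ (p : ℕ) [Fact p.Prime], p ∈ v → HasPoint ℚ_[p] F (x : ℚ_[p])}
  | clopen (E : Set ℚ) (hE : Negl E) (R : Set ℚ) (hR : Clopen E R) : LineAlg Q R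
  | prod (E : Set ℚ) (hE : Negl E) (P : ℕ → Set ℚ)
      (hP : ∀ p : ℕ, p.Prime → PadicClosed p E (P p)) (hQ : NearInfinity Q P) :
      LineAlg Q {x | ∀ p : ℕ, p.Prime → x ∈ P p}
  | compl (D : Set ℚ) (h : LineAlg Q D) : LineAlg Q Dᶜ
  | inter (D D' : Set ℚ) (hD : LineAlg Q D) (hD' : LineAlg Q D') : LineAlg Q (D ∩ D')
  | ex (G : ℚ[X][X]) (hG : G ≠ 0) (D : Set (ℚ × ℚ))
      (h : ∀ ρ : RatFunc ℚ, IsRt G ρ → LineAlg Q {x | (x, val ρ x) ∈ D}) :
      LineAlg Q {x | ∃ z : ℚ, (G.map (evalRingHom x)).eval z = 0 ∧ (x, z) ∈ D}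

theorem LineAlg.det {Q : Set ℕ} {A : Set ℚ} (h : LineAlg Q A) : Det Q A := by
  induction h with
  | negl E h => exact Det.of_negl h
  | sol F hF b v => exact Det.sol F hF b v
  | clopen E hE R hR =>
    have h1 : R = {x | x ∈ R ∧ ∀ p : ℕ, p.Prime → x ∈ (Set.univ : Set ℚ)} := by
      ext x
      simp
    rw [h1]
    exact Det.loc E hE R (fun _ => Set.univ) hR
      (fun p _ x _ hx => absurd (Set.mem_univ x) hx) 1 0 one_ne_zero ∅ (by simp)
      fun p _ _ _ _ => ⟨0, fun z _ => Set.mem_univ _⟩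
  | prod E hE P hP hQ =>
    obtain ⟨L, N, H, hL, hH, hQ⟩ := hQ
    have h1 : {x : ℚ | ∀ p : ℕ, p.Prime → x ∈ P p} =
        {x | x ∈ (Set.univ : Set ℚ) ∧ ∀ p : ℕ, p.Prime → x ∈ P p} := by
      ext x
      simp
    rw [h1]
    exact Det.loc E hE Set.univ P (fun x _ => ⟨1, 1, one_pos, one_pos, fun y _ _ => by simp⟩)
      hP L N hL H hH hQ
  | compl D _ ih => exact ih.compl
  | inter D D' _ _ ihD ihD' => exact ihD.inter ihD'
  | ex G hG D _ ih => exact Det.ex G hG D ih

/-- the families satisfying the Hasse principle outside a negligible set -/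
theorem LineAlg.hasse {Q : Set ℕ} {n r : ℕ} (F : Fin r → MvPolynomial (Fin n) ℚ[X]) (hF : Homog F)
    (h : Negl {x : ℚ | LocSol F x ∧ ¬ HasPoint ℚ F x}) : LineAlg Q {x | HasPoint ℚ F x} := by
  have h1 := LineAlg.inter _ _ (LineAlg.sol (Q := Q) F hF True Set.univ)
    (LineAlg.compl _ (LineAlg.negl _ h))
  have h2 : {x : ℚ | HasPoint ℚ F x} = {x : ℚ | (True → HasPoint ℝ F (x : ℝ)) ∧
        ∀ (p : ℕ) [Fact p.Prime], p ∈ (Set.univ : Set ℕ) → HasPoint ℚ_[p] F (x : ℚ_[p])} ∩
        {x : ℚ | LocSol F x ∧ ¬ HasPoint ℚ F x}ᶜ := by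
    ext x
    constructor
    · intro hx
      exact ⟨⟨fun _ => hx.real, fun p _ _ => hx.padic p⟩, fun hx' => hx'.2 hx⟩
    · rintro ⟨⟨h3, h4⟩, h5⟩
      by_contra hno
      exact h5 ⟨⟨h3 trivial, fun p _ => h4 p (Set.mem_univ p)⟩, hno⟩
  rw [h2]
  exact h1

/-- The smallest collection of sets of rational numbers which contains the Boolean algebra
`LineAlg Q` and the sets of Brauer-Manin type, and is closed under finite unions, finite
intersections and algebraic quantifiers.

A set of Brauer-Manin type consists of the `x` for which there are elements `γ_∞ ∈ J x` and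
`γ_p ∈ I p x` for all primes `p`, almost all zero, with sum zero (`Manin J I x`). Here `J x` and
`I p x` are subsets of a finite abelian group `Γ` which depend in a locally constant way on `x`
outside a negligible set `E`, for large primes `p` and integers `n` outside `E` the set `I p n` is
empty or contains `0`, and `NearInfinity Q` holds for the sets of the `x` with `0 ∈ I p x`. For
example `I p x` is the set of the values at the points of `V_x(ℚ_[p])` of the local invariants of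
finitely many classes in the Brauer group of the generic fibre of a family `V` over the line. -/
inductive PosAlg (Q : Set ℕ) : Set ℚ → Prop
  | base (A : Set ℚ) (h : LineAlg Q A) : PosAlg Q A
  | manin {Γ : Type} [AddCommGroup Γ] [Finite Γ] (J : ℚ → Set Γ) (I : ℕ → ℚ → Set Γ) (E : Set ℚ)
      (hE : Negl E) (hJ : ∀ γ : Γ, Clopen E {x | γ ∈ J x})
      (hI : ∀ p : ℕ, p.Prime → ∀ γ : Γ, PadicClopen p E {x | γ ∈ I p x})
      (hgood : ∃ N : ℕ, ∀ p : ℕ, p.Prime → N < p → ∀ n : ℤ, (n : ℚ) ∉ E → (I p n).Nonempty →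
        (0 : Γ) ∈ I p n)
      (hnear : NearInfinity Q fun p => {x | (0 : Γ) ∈ I p x}) : PosAlg Q {x | Manin J I x}
  | union (D D' : Set ℚ) (hD : PosAlg Q D) (hD' : PosAlg Q D') : PosAlg Q (D ∪ D')
  | inter (D D' : Set ℚ) (hD : PosAlg Q D) (hD' : PosAlg Q D') : PosAlg Q (D ∩ D')
  | ex (G : ℚ[X][X]) (hG : G ≠ 0) (D : Set (ℚ × ℚ))
      (h : ∀ ρ : RatFunc ℚ, IsRt G ρ → PosAlg Q {x | (x, val ρ x) ∈ D}) :
      PosAlg Q {x | ∃ z : ℚ, (G.map (evalRingHom x)).eval z = 0 ∧ (x, z) ∈ D}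

theorem PosAlg.det {Q : Set ℕ} {A : Set ℚ} (h : PosAlg Q A) : DetPos Q A := by
  induction h with
  | base A h => exact h.det.pos
  | manin J I E hE hJ hI hgood hnear => exact DetPos.manin J I E hE hJ hI hgood hnear
  | union D D' _ _ ihD ihD' => exact ihD.union ihD'
  | inter D D' _ _ ihD ihD' => exact ihD.inter ihD'
  | ex G hG D _ ih => exact DetPos.ex G hG D ih

/-- integrality at the primes outside `Q` -/
theorem det_ring (Q : Set ℕ) :
    Det Q {x : ℚ | ∀ p : ℕ, p.Prime → p ∉ Q → padicNorm p x ≤ 1} := by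
  have h1 : {x : ℚ | ∀ p : ℕ, p.Prime → p ∉ Q → padicNorm p x ≤ 1} =
      {x | x ∈ (Set.univ : Set ℚ) ∧ ∀ p : ℕ, p.Prime → x ∈ {x | p ∉ Q → padicNorm p x ≤ 1}} := by
    ext x
    simp
  rw [h1]
  refine Det.loc ∅ (Negl.of_finite Set.finite_empty) Set.univ
    (fun p => {x | p ∉ Q → padicNorm p x ≤ 1}) ?_ ?_ 1 0 one_ne_zero ∅ (by simp) ?_
  · intro x _
    exact ⟨1, 1, one_pos, one_pos, fun y _ _ => by simp⟩
  · intro p hp x _ hx
    have : Fact p.Prime := ⟨hp⟩
    have hx' : ¬ (p ∉ Q → padicNorm p x ≤ 1) := hx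
    push Not at hx'
    refine ⟨1, one_pos, fun y hy hyP => ?_⟩
    have h2 : x = y + -(y - x) := by ring
    have h3 : padicNorm p x ≤ 1 := by
      rw [h2]
      refine padicNorm.nonarchimedean.trans (max_le (hyP hx'.1) ?_)
      rw [padicNorm.neg]
      exact hy.le
    exact absurd h3 (not_le.2 hx'.2)
  · intro p _ hpQ _ _
    exact ⟨0, fun z _ hn => absurd hpQ hn⟩

theorem PosAlg.pole {Q : Set ℕ} (hQ : Pool.Agent.TH766.HP.Rich Q) {A : Set ℚ}
    (hA : PosAlg Q A) (hAP : ∀ a ∈ A, ∀ p : ℕ, p.Prime → p ∈ Q → padicNorm p a ≤ 1)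
    (m k : ℤ) (hk : 0 < k) :
    ∃ m' k' : ℤ, 0 < k' ∧ k ∣ k' ∧ k ∣ m' - m ∧ ∀ n : ℤ, k' ∣ n - m' → (n : ℚ) ∉ A := by
  obtain ⟨m', k', h1, h2, h3, h4⟩ := (hA.det.inter (det_ring Q).pos).main hQ (by
    rintro x ⟨hx1, hx2⟩
    apply int_of_norm
    intro p hp
    by_cases hpQ : p ∈ Q
    · exact hAP x hx1 p hp hpQ
    · exact hx2 p hp hpQ) m k hk
  refine ⟨m', k', h1, h2, h3, fun n hn hnA => h4 n hn ⟨hnA, fun p hp _ => ?_⟩⟩
  have : Fact p.Prime := ⟨hp⟩
  exact padicNorm.of_int n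

end Pool.Agent.H105.TP
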