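import Pool.Agent.H105.TP.Pos
import Pool.Agent.H105.TP.Conds

/-!
# Sets of Brauer-Manin type
-/

set_option autoImplicit false

namespace Pool.Agent.H105.TP

open Polynomial Pool.Agent.H527R9.CC Pool.Agent.TH766.HP

variable {Γ : Type} [AddCommGroup Γ]

/-- the sums of local invariants at the primes dividing `b` -/
def Sm (I : ℕ → ℚ → Set Γ) (a b : ℤ) : Set Γ :=
  {g | ∃ γ : ℕ → Γ, (∀ p ∈ b.natAbs.primeFactors, γ p ∈ I p a) ∧
    ∑ p ∈ b.natAbs.primeFactors, γ p = g}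

theorem near_const [Finite Γ] (I : ℕ → ℚ → Set Γ) (E : Set ℚ) (p : ℕ) (hp : p.Prime)
    (hI : ∀ γ : Γ, PadicClopen p E {x | γ ∈ I p x}) (x : ℚ) (hx : x ∉ E) :
    ∃ e : ℕ, ∀ y : ℚ, padicNorm p (y - x) ≤ (p : ℚ) ^ (-(e : ℤ)) → I p y = I p x := by
  have : Nonempty Γ := ⟨0⟩
  choose ε hε h using fun γ => hI γ x hx
  obtain ⟨γ0, hγ0⟩ := Finite.exists_min ε
  obtain ⟨e, he⟩ := CORE_small p hp (ε γ0) (hε γ0)
  refine ⟨e, fun y hy => Set.ext fun γ => ?_⟩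
  exact h γ y ((hy.trans_lt he).trans_le (hγ0 γ))

theorem norm_le_of_dvd (p : ℕ) (hp : p.Prime) (e : ℕ) (b : ℤ) (h : ((p ^ e : ℕ) : ℤ) ∣ b) :
    padicNorm p (b : ℚ) ≤ (p : ℚ) ^ (-(e : ℤ)) := by
  have : Fact p.Prime := ⟨hp⟩
  exact padicNorm.dvd_iff_norm_le.1 h

/-- A residue class in a given one on which the local invariants at the primes dividing the modulus
are constant. -/
structure GC (I : ℕ → ℚ → Set Γ) (E : Set ℚ) (N : ℕ) (a1 b1 a b : ℤ) : Prop where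
  pos : 0 < b
  dvd : b1 ∣ b
  dvd' : b1 ∣ a - a1
  fin : (E ∩ Cls a b).Finite
  small : ∀ p : ℕ, p.Prime → p ≤ N → (p : ℤ) ∣ b
  const : ∀ p : ℕ, p.Prime → (p : ℤ) ∣ b → ∀ y ∈ Cls a b, I p y = I p a

theorem exists_int_not_mem (E : Set ℚ) (a b : ℤ) (hfin : (E ∩ Cls a b).Finite)
    (b' : ℤ) (hb' : 0 < b') (hbb : b ∣ b') : ∃ n : ℤ, b' ∣ n - a ∧ (n : ℚ) ∉ E := by
  have h1 : (Set.range fun j : ℤ => ((a + b' * j : ℤ) : ℚ)).Infinite := by
    apply Set.infinite_range_of_injective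
    intro i j hij
    have h2 : a + b' * i = a + b' * j := by
      have h3 : ((a + b' * i : ℤ) : ℚ) = ((a + b' * j : ℤ) : ℚ) := hij
      exact_mod_cast h3
    exact mul_left_cancel₀ hb'.ne' (add_left_cancel h2)
  obtain ⟨x, ⟨j, rfl⟩, hx⟩ := (h1.sdiff hfin).nonempty
  refine ⟨a + b' * j, ⟨j, by ring⟩, fun hE => hx ⟨hE, int_mem_Cls ?_⟩⟩
  rw [add_sub_cancel_left]
  exact hbb.mul_right j

theorem exists_gc [Finite Γ] (I : ℕ → ℚ → Set Γ) (E : Set ℚ) (hE : Negl E)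
    (hI : ∀ p : ℕ, p.Prime → ∀ γ : Γ, PadicClopen p E {x | γ ∈ I p x}) (N : ℕ) (a1 b1 : ℤ)
    (hb1 : 0 < b1) : ∃ a b : ℤ, GC I E N a1 b1 a b := by
  obtain ⟨a2, b2, hb2, h1, h2, hfin⟩ := hE a1 b1 hb1
  obtain ⟨b3, hb3⟩ : ∃ b3 : ℤ, b3 = b2 * (N.factorial : ℤ) := ⟨_, rfl⟩
  have hb3pos : 0 < b3 := by
    rw [hb3]
    exact mul_pos hb2 (by exact_mod_cast N.factorial_pos)
  obtain ⟨n, hn, hnE⟩ := exists_int_not_mem E a2 b2 hfin b3 hb3pos (hb3 ▸ dvd_mul_right _ _)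
  choose e he using fun p : {p : ℕ // p.Prime} =>
    near_const I E p.1 p.2 (hI p.1 p.2) (n : ℚ) hnE
  obtain ⟨e', he'⟩ : ∃ e' : ℕ → ℕ, ∀ (p : ℕ) (hp : p.Prime), e' p = e ⟨p, hp⟩ := by
    classical
    exact ⟨fun p => if hp : p.Prime then e ⟨p, hp⟩ else 0, fun p hp => by simp [hp]⟩
  obtain ⟨b4, hb4⟩ : ∃ b4 : ℤ, b4 = b3 * ((∏ p ∈ b3.natAbs.primeFactors, p ^ e' p : ℕ) : ℤ) :=
    ⟨_, rfl⟩
  have hprodpos : 0 < ∏ p ∈ b3.natAbs.primeFactors, p ^ e' p :=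
    Finset.prod_pos fun p hp => pow_pos (Nat.prime_of_mem_primeFactors hp).pos _
  have hb4pos : 0 < b4 := by
    rw [hb4]
    exact mul_pos hb3pos (by exact_mod_cast hprodpos)
  have hb34 : b3 ∣ b4 := hb4 ▸ dvd_mul_right _ _
  have hb23 : b2 ∣ b3 := hb3 ▸ dvd_mul_right _ _
  have hprimes : ∀ p : ℕ, p.Prime → (p : ℤ) ∣ b4 → p ∈ b3.natAbs.primeFactors := by
    intro p hp hd
    have hd' : (p : ℤ) ∣ b3 ∨ (p : ℤ) ∣ ((∏ p ∈ b3.natAbs.primeFactors, p ^ e' p : ℕ) : ℤ) := by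
      rw [hb4] at hd
      exact (Nat.prime_iff_prime_int.1 hp).dvd_or_dvd hd
    rcases hd' with h | h
    · exact Nat.mem_primeFactors.2 ⟨hp, Int.natCast_dvd.1 h, Int.natAbs_ne_zero.2 hb3pos.ne'⟩
    · have h3 : p ∣ ∏ p ∈ b3.natAbs.primeFactors, p ^ e' p := by exact_mod_cast h
      obtain ⟨q, hq, hpq⟩ := (hp.prime.dvd_finsetProd_iff _).1 h3
      have h4 : p ∣ q := hp.dvd_of_dvd_pow hpq
      have h5 := (Nat.prime_dvd_prime_iff_eq hp (Nat.prime_of_mem_primeFactors hq)).1 h4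
      rwa [h5]
  refine ⟨n, b4, hb4pos, h1.trans (hb23.trans hb34), ?_, ?_, ?_, ?_⟩
  · have : n - a1 = (n - a2) + (a2 - a1) := by ring
    rw [this]
    exact dvd_add ((h1.trans hb23).trans hn) h2
  · refine hfin.subset (Set.inter_subset_inter_right _ (Cls_mono hb4pos (hb23.trans hb34) ?_))
    exact hb23.trans hn
  · intro p hp hpN
    refine Dvd.dvd.trans ?_ hb34
    rw [hb3]
    refine Dvd.dvd.mul_left ?_ _
    exact_mod_cast (Nat.Prime.dvd_factorial hp).2 hpN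
  · intro p hp hd y hy
    refine he ⟨p, hp⟩ y ((hy p hp hd).trans (norm_le_of_dvd p hp _ b4 ?_))
    rw [← he' p hp, hb4]
    refine Dvd.dvd.mul_left ?_ _
    have h3 : p ^ e' p ∣ ∏ p ∈ b3.natAbs.primeFactors, p ^ e' p :=
      Finset.dvd_prod_of_mem (fun p => p ^ e' p) (hprimes p hp hd)
    exact_mod_cast h3

theorem GC.extend [Finite Γ] {I : ℕ → ℚ → Set Γ} {E : Set ℚ} {N : ℕ} {a1 b1 a b : ℤ}
    (h : GC I E N a1 b1 a b)
    (hI : ∀ p : ℕ, p.Prime → ∀ γ : Γ, PadicClopen p E {x | γ ∈ I p x}) (n : ℤ) (hn : b ∣ n - a)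
    (hnE : (n : ℚ) ∉ E) (l : ℕ) (hl : l.Prime) : ∃ e : ℕ, GC I E N a1 b1 n (b * (l : ℤ) ^ (e + 1)) := by
  obtain ⟨e, he⟩ := near_const I E l hl (hI l hl) (n : ℚ) hnE
  have hlpos : (0 : ℤ) < l := by exact_mod_cast hl.pos
  have hsub : Cls n (b * (l : ℤ) ^ (e + 1)) ⊆ Cls a b :=
    Cls_mono (mul_pos h.pos (pow_pos hlpos _)) (dvd_mul_right _ _) hn
  refine ⟨e, mul_pos h.pos (pow_pos hlpos _), h.dvd.mul_right _, ?_,
    h.fin.subset (Set.inter_subset_inter_right _ hsub), fun p hp hpN =>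
      (h.small p hp hpN).mul_right _, ?_⟩
  · have : n - a1 = (n - a) + (a - a1) := by ring
    rw [this]
    exact dvd_add (h.dvd.trans hn) h.dvd'
  · intro p hp hd y hy
    by_cases hpl : p = l
    · subst hpl
      refine he y ((hy p hp hd).trans (norm_le_of_dvd p hp _ _ ?_))
      push_cast
      exact Dvd.dvd.mul_left (pow_dvd_pow _ (Nat.le_succ e)) _
    · have hdb : (p : ℤ) ∣ b := by
        rcases (Nat.prime_iff_prime_int.1 hp).dvd_or_dvd hd with h3 | h3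
        · exact h3
        · exfalso
          have h4 : p ∣ l ^ (e + 1) := by exact_mod_cast h3
          exact hpl ((Nat.prime_dvd_prime_iff_eq hp hl).1 (hp.dvd_of_dvd_pow h4))
      rw [h.const p hp hdb y (hsub hy), h.const p hp hdb n (int_mem_Cls hn)]

theorem Sm_extend {I : ℕ → ℚ → Set Γ} {E : Set ℚ} {N : ℕ} {a1 b1 a b : ℤ}
    (h : GC I E N a1 b1 a b) (n : ℤ) (hn : b ∣ n - a) (l : ℕ) (hl : l.Prime)
    (hlb : ¬ (l : ℤ) ∣ b) (e : ℕ) (g γ : Γ) (hg : g ∈ Sm I a b) (hγ : γ ∈ I l n) :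
    g + γ ∈ Sm I n (b * (l : ℤ) ^ (e + 1)) := by
  classical
  obtain ⟨f, hf, rfl⟩ := hg
  have hpf : (b * (l : ℤ) ^ (e + 1)).natAbs.primeFactors = insert l b.natAbs.primeFactors := by
    rw [Int.natAbs_mul, Int.natAbs_pow, Int.natAbs_natCast,
      Nat.primeFactors_mul (Int.natAbs_ne_zero.2 h.pos.ne') (pow_ne_zero _ hl.ne_zero),
      Nat.primeFactors_prime_pow (Nat.succ_ne_zero e) hl, Finset.union_comm]
    rfl
  have hlmem : l ∉ b.natAbs.primeFactors := fun hmem =>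
    hlb (Int.natCast_dvd.2 (Nat.dvd_of_mem_primeFactors hmem))
  refine ⟨Function.update f l γ, fun p hp => ?_, ?_⟩
  · rw [hpf] at hp
    rcases Finset.mem_insert.1 hp with rfl | hp'
    · rw [Function.update_self]
      exact hγ
    · have hpl : p ≠ l := by
        rintro rfl
        exact hlmem hp'
      rw [Function.update_of_ne hpl]
      have hpd : (p : ℤ) ∣ b := Int.natCast_dvd.2 (Nat.dvd_of_mem_primeFactors hp')
      rw [h.const p (Nat.prime_of_mem_primeFactors hp') hpd n (int_mem_Cls hn)]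
      exact hf p hp'
  · rw [hpf, Finset.sum_insert hlmem, Function.update_self, add_comm]
    congr 1
    refine Finset.sum_congr rfl fun p hp => ?_
    have hpl : p ≠ l := by
      rintro rfl
      exact hlmem hp
    rw [Function.update_of_ne hpl]

/-- a class with the largest number of sums of local invariants -/
theorem exists_max [Finite Γ] (I : ℕ → ℚ → Set Γ) (E : Set ℚ) (hE : Negl E)
    (hI : ∀ p : ℕ, p.Prime → ∀ γ : Γ, PadicClopen p E {x | γ ∈ I p x}) (N : ℕ) (a1 b1 : ℤ)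
    (hb1 : 0 < b1) : ∃ a b : ℤ, GC I E N a1 b1 a b ∧
      ∀ a' b' : ℤ, GC I E N a1 b1 a' b' → (Sm I a' b').ncard ≤ (Sm I a b).ncard := by
  have hne : {k : ℕ | ∃ a b : ℤ, GC I E N a1 b1 a b ∧ (Sm I a b).ncard = k}.Nonempty := by
    obtain ⟨a, b, h⟩ := exists_gc I E hE hI N a1 b1 hb1
    exact ⟨_, a, b, h, rfl⟩
  have hbdd : BddAbove {k : ℕ | ∃ a b : ℤ, GC I E N a1 b1 a b ∧ (Sm I a b).ncard = k} := by
    refine ⟨(Set.univ : Set Γ).ncard, ?_⟩
    rintro k ⟨a, b, -, rfl⟩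
    exact Set.ncard_le_ncard (Set.subset_univ _) Set.finite_univ
  obtain ⟨a, b, h, hk⟩ := Nat.sSup_mem hne hbdd
  refine ⟨a, b, h, fun a' b' h' => ?_⟩
  rw [hk]
  exact le_csSup hbdd ⟨a', b', h', rfl⟩

theorem DetPos.manin [Finite Γ] {Q : Set ℕ} (J : ℚ → Set Γ) (I : ℕ → ℚ → Set Γ) (E : Set ℚ)
    (hE : Negl E) (hJ : ∀ γ : Γ, Clopen E {x | γ ∈ J x})
    (hI : ∀ p : ℕ, p.Prime → ∀ γ : Γ, PadicClopen p E {x | γ ∈ I p x})
    (hgood : ∃ N : ℕ, ∀ p : ℕ, p.Prime → N < p → ∀ n : ℤ, (n : ℚ) ∉ E → (I p n).Nonempty →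
      (0 : Γ) ∈ I p n)
    (hnear : NearInfinity Q fun p => {x | (0 : Γ) ∈ I p x}) : DetPos Q {x | Manin J I x} := by
  classical
  obtain ⟨N, hgood⟩ := hgood
  obtain ⟨L, N', H, hL, hH, hnear⟩ := hnear
  refine DetPos.congr (B := {x | Manin J I x} ∩ Eᶜ) hE ?_ (fun x hx => by simp [hx])
  intro a1 b1 hb1
  obtain ⟨a0, b0, hgc, hmax⟩ := exists_max I E hE hI N a1 b1 hb1
  -- the invariants at the other primes do not give new sums
  have hkey : ∀ (n : ℤ), b0 ∣ n - a0 → (n : ℚ) ∉ E → ∀ l : ℕ, l.Prime → ¬ (l : ℤ) ∣ b0 →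
      ∀ g ∈ Sm I a0 b0, ∀ γ ∈ I l n, g + γ ∈ Sm I a0 b0 := by
    intro n hn hnE l hl hlb g hg γ hγ
    obtain ⟨e, he⟩ := hgc.extend hI n hn hnE l hl
    have hlN : N < l := by
      by_contra hcon
      exact hlb (hgc.small l hl (not_lt.1 hcon))
    have h0 : (0 : Γ) ∈ I l n := hgood l hl hlN n hnE ⟨γ, hγ⟩
    have hsub : Sm I a0 b0 ⊆ Sm I n (b0 * (l : ℤ) ^ (e + 1)) := by
      intro g' hg'
      have := Sm_extend hgc n hn l hl hlb e g' 0 hg' h0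
      rwa [add_zero] at this
    have heq := Set.eq_of_subset_of_ncard_le hsub (hmax _ _ he) (Set.toFinite _)
    rw [heq]
    exact Sm_extend hgc n hn l hl hlb e g γ hg hγ
  obtain ⟨P, hP⟩ : ∃ P : ℕ → Set ℚ, P = fun p : ℕ => {x : ℚ | ((p : ℤ) ∣ b0 → (I p x).Nonempty) ∧
      (¬ (p : ℤ) ∣ b0 → (0 : Γ) ∈ I p x)} := ⟨_, rfl⟩
  obtain ⟨R, hR⟩ : ∃ R : Set ℚ, R = {x | ∃ g ∈ Sm I a0 b0, -g ∈ J x} := ⟨_, rfl⟩
  have hS1 : NiceOn Q a0 b0 {x | x ∈ R ∧ ∀ p : ℕ, p.Prime → x ∈ P p} := by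
    refine NiceOn.loc E hgc.fin R P ?_ ?_ L (max N' b0.toNat) hL H hH ?_
    · intro x hx
      choose ε m hε hm h using fun γ => hJ γ x hx
      have : Nonempty Γ := ⟨0⟩
      obtain ⟨γ0, hγ0⟩ := Finite.exists_min ε
      have hfin : Fintype Γ := Fintype.ofFinite Γ
      have hmm : ∀ γ, m γ ∣ ∏ γ, m γ := fun γ => Finset.dvd_prod_of_mem m (Finset.mem_univ γ)
      have hmpos : 0 < ∏ γ, m γ := Finset.prod_pos fun γ _ => hm γ
      refine ⟨ε γ0, ∏ γ, m γ, hε γ0, hmpos, fun y hy hyC => ?_⟩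
      rw [hR]
      refine exists_congr fun g => and_congr_right fun _ => ?_
      exact h (-g) y (hy.trans_le (hγ0 _)) (Cls_mono hmpos (hmm _) (by simp) hyC)
    · intro p hp x hx hxP
      obtain ⟨e, he⟩ := near_const I E p hp (hI p hp) x hx
      have hp0 : (0 : ℚ) < p := by exact_mod_cast hp.pos
      refine ⟨(p : ℚ) ^ (-(e : ℤ)), zpow_pos hp0 _, fun y hy hyP => hxP ?_⟩
      have h1 := he y hy.le
      rw [hP] at hyP ⊢
      have hyP' : ((p : ℤ) ∣ b0 → (I p y).Nonempty) ∧ (¬ (p : ℤ) ∣ b0 → (0 : Γ) ∈ I p y) := hyP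
      rw [h1] at hyP'
      exact hyP'
    · intro p hpF hpQ hpN hroot
      obtain ⟨c, hc⟩ := hnear p hpQ ((le_max_left _ _).trans_lt hpN) hroot
      have hpb : ¬ (p : ℤ) ∣ b0 := by
        intro hd
        have h1 := Int.le_of_dvd hgc.pos hd
        have h2 := (le_max_right N' b0.toNat).trans_lt hpN
        omega
      refine ⟨c, fun z hz => ?_⟩
      rw [hP]
      exact ⟨fun hd => absurd hd hpb, fun _ => hc z hz⟩
  refine ⟨a0, b0, hgc.pos, hgc.dvd, hgc.dvd', 2,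
    ![{x | x ∈ R ∧ ∀ p : ℕ, p.Prime → x ∈ P p}, E], ?_, ?_⟩
  · intro i
    fin_cases i
    · exact hS1
    · exact NiceOn.of_finite hgc.fin
  · intro n y hn hy hiff hnA
    obtain ⟨⟨s, γ, hs, hγ, hγ0, hsum⟩, hnE⟩ := hnA
    have h1 : ((n : ℚ) ∈ {x | x ∈ R ∧ ∀ p : ℕ, p.Prime → x ∈ P p} ↔
        y ∈ {x | x ∈ R ∧ ∀ p : ℕ, p.Prime → x ∈ P p}) := hiff 0
    have h2 : ((n : ℚ) ∈ E ↔ y ∈ E) := hiff 1
    have hyE : y ∉ E := fun h => hnE (h2.2 h)
    have hnC : (n : ℚ) ∈ Cls a0 b0 := int_mem_Cls hn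
    -- the sum is a sum of invariants at the primes dividing `b0`
    have hsplit : ∑ p ∈ s, γ p ∈ Sm I a0 b0 := by
      have hA : ∀ t : Finset ℕ, (∀ p ∈ t, p.Prime ∧ ¬ (p : ℤ) ∣ b0) →
          (∑ p ∈ b0.natAbs.primeFactors, γ p) + ∑ p ∈ t, γ p ∈ Sm I a0 b0 := by
        intro t
        induction t using Finset.induction_on with
        | empty =>
          intro _
          rw [Finset.sum_empty, add_zero]
          refine ⟨γ, fun p hp => ?_, rfl⟩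
          have hpp := Nat.prime_of_mem_primeFactors hp
          have hpd : (p : ℤ) ∣ b0 := Int.natCast_dvd.2 (Nat.dvd_of_mem_primeFactors hp)
          rw [← hgc.const p hpp hpd n hnC]
          exact hγ p hpp
        | insert q t hqt ih =>
          intro ht
          rw [Finset.sum_insert hqt, add_comm (γ q), ← add_assoc]
          have hq := ht q (Finset.mem_insert_self q t)
          exact hkey n hn hnE q hq.1 hq.2 _
            (ih fun p hp => ht p (Finset.mem_insert_of_mem hp)) _ (hγ q hq.1)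
      have hB := hA (s.filter fun p : ℕ => ¬ (p : ℤ) ∣ b0) (fun p hp => by
        rw [Finset.mem_filter] at hp
        exact ⟨hs p hp.1, hp.2⟩)
      have hC : ∑ p ∈ s, γ p = (∑ p ∈ b0.natAbs.primeFactors, γ p) +
          ∑ p ∈ s.filter (fun p : ℕ => ¬ (p : ℤ) ∣ b0), γ p := by
        rw [← Finset.sum_filter_add_sum_filter_not s (fun p : ℕ => (p : ℤ) ∣ b0)]
        congr 1
        refine Finset.sum_subset (fun p hp => ?_) fun p hp hps => ?_
        · rw [Finset.mem_filter] at hp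
          exact Nat.mem_primeFactors.2 ⟨hs p hp.1, Int.natCast_dvd.1 hp.2,
            Int.natAbs_ne_zero.2 hgc.pos.ne'⟩
        · have hpp := Nat.prime_of_mem_primeFactors hp
          have hpd : (p : ℤ) ∣ b0 := Int.natCast_dvd.2 (Nat.dvd_of_mem_primeFactors hp)
          refine hγ0 p hpp fun hps' => hps ?_
          exact Finset.mem_filter.2 ⟨hps', hpd⟩
      rw [hC]
      exact hB
    have hn1 : (n : ℚ) ∈ {x | x ∈ R ∧ ∀ p : ℕ, p.Prime → x ∈ P p} := by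
      refine ⟨?_, fun p hp => ?_⟩
      · rw [hR]
        exact ⟨_, hsplit, hsum⟩
      · rw [hP]
        refine ⟨fun _ => ⟨γ p, hγ p hp⟩, fun hpb => ?_⟩
        refine hgood p hp ?_ n hnE ⟨γ p, hγ p hp⟩
        by_contra hcon
        exact hpb (hgc.small p hp (not_lt.1 hcon))
    obtain ⟨hyR, hyP⟩ := h1.1 hn1
    refine ⟨?_, hyE⟩
    rw [hR] at hyR
    obtain ⟨g, ⟨f, hf, rfl⟩, hg⟩ := hyR
    have hyP' : ∀ p : ℕ, p.Prime → ((p : ℤ) ∣ b0 → (I p y).Nonempty) ∧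
        (¬ (p : ℤ) ∣ b0 → (0 : Γ) ∈ I p y) := by
      intro p hp
      have := hyP p hp
      rw [hP] at this
      exact this
    refine ⟨b0.natAbs.primeFactors, fun p => if (p : ℤ) ∣ b0 then f p else 0,
      fun p hp => Nat.prime_of_mem_primeFactors hp, fun p hp => ?_, fun p hp hps => ?_, ?_⟩
    · by_cases hd : (p : ℤ) ∣ b0
      · simp only [hd, if_true]
        rw [hgc.const p hp hd y hy]
        exact hf p (Nat.mem_primeFactors.2 ⟨hp, Int.natCast_dvd.1 hd,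
          Int.natAbs_ne_zero.2 hgc.pos.ne'⟩)
      · simp only [hd, if_false]
        exact (hyP' p hp).2 hd
    · have hd : ¬ (p : ℤ) ∣ b0 := fun hd => hps (Nat.mem_primeFactors.2
        ⟨hp, Int.natCast_dvd.1 hd, Int.natAbs_ne_zero.2 hgc.pos.ne'⟩)
      simp [hd]
    · have hD : ∑ p ∈ b0.natAbs.primeFactors, (if (p : ℤ) ∣ b0 then f p else 0) =
          ∑ p ∈ b0.natAbs.primeFactors, f p := by
        refine Finset.sum_congr rfl fun p hp => ?_
        have hd : (p : ℤ) ∣ b0 := Int.natCast_dvd.2 (Nat.dvd_of_mem_primeFactors hp)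
        simp [hd]
      rw [hD]
      exact hg

end Pool.Agent.H105.TP
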