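import Pool.Agent.TH766.HP.Alg

/-!
# Powers of rational numbers near infinity
-/

set_option autoImplicit false

namespace Pool.Agent.H105.TP

open Polynomial Pool.Agent.H527R9.CC Pool.Agent.TH766.HP

theorem approx (p : ℕ) [Fact p.Prime] (L : ℕ) (c : ℚ) (M : ℕ) (hM : M ≠ 0)
    (hLM : L ∣ M) (n m : ℤ) (hm : m ≠ 0) :
    ∃ K : ℕ, ∀ k : ℕ, K ≤ k → ∀ ε : ℚ, 0 < ε → ∃ z : ℚ, c < padicNorm p z ∧
      padicNorm p (z ^ L - ((n : ℚ) + ((m : ℚ) / (p : ℚ) ^ k) ^ M)) < ε := by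
  obtain ⟨e, rfl⟩ := hLM
  have he : e ≠ 0 := by rintro rfl; exact hM rfl
  obtain ⟨δ, hδ, hsq⟩ := t_SQK p (L * e) hM
  have hp1 : (1 : ℝ) < p := by exact_mod_cast (Fact.out : p.Prime).one_lt
  have hm0 : ‖(m : ℚ_[p])‖ ≠ 0 := by
    rw [Ne, norm_eq_zero]
    exact_mod_cast hm
  have hmpos : 0 < ‖(m : ℚ_[p])‖ := lt_of_le_of_ne (norm_nonneg _) hm0.symm
  obtain ⟨A, hA⟩ : ∃ A : ℝ, A = max (max 1 (c : ℝ)) (1 / δ) + 1 := ⟨_, rfl⟩
  obtain ⟨K, hK⟩ := pow_unbounded_of_one_lt (A / ‖(m : ℚ_[p])‖) hp1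
  refine ⟨K, fun k hk ε hε => ?_⟩
  set q : ℚ_[p] := (m : ℚ_[p]) / (p : ℚ_[p]) ^ k with hq
  have hqn : A < ‖q‖ := by
    rw [hq, norm_div, norm_pow, Padic.norm_p, inv_pow, div_inv_eq_mul]
    have h1 : (p : ℝ) ^ K ≤ (p : ℝ) ^ k := pow_le_pow_right₀ hp1.le hk
    have h2 : A / ‖(m : ℚ_[p])‖ < (p : ℝ) ^ k := hK.trans_le h1
    rw [div_lt_iff₀ hmpos] at h2
    linarith
  have hA1 : max 1 (c : ℝ) < A := by
    rw [hA]; have := le_max_left (max 1 (c : ℝ)) (1 / δ); linarith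
  have hA2 : 1 / δ < A := by
    rw [hA]; have := le_max_right (max 1 (c : ℝ)) (1 / δ); linarith
  have hq1 : 1 < ‖q‖ := lt_trans (lt_of_le_of_lt (le_max_left _ _) hA1) hqn
  have hqc : (c : ℝ) < ‖q‖ := lt_trans (lt_of_le_of_lt (le_max_right _ _) hA1) hqn
  have hqδ : 1 / δ < ‖q‖ := hA2.trans hqn
  have hq0 : q ≠ 0 := norm_pos_iff.1 (by linarith)
  set u : ℚ_[p] := 1 + (n : ℚ_[p]) / q ^ (L * e) with hu
  have hsmall : ‖(n : ℚ_[p]) / q ^ (L * e)‖ < min δ 1 := by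
    rw [norm_div, norm_pow]
    have h1 : ‖(n : ℚ_[p])‖ ≤ 1 := Padic.norm_int_le_one n
    have h2 : ‖q‖ ≤ ‖q‖ ^ (L * e) := by
      calc ‖q‖ = ‖q‖ ^ 1 := (pow_one _).symm
        _ ≤ _ := pow_le_pow_right₀ hq1.le (Nat.one_le_iff_ne_zero.2 hM)
    have h3 : 0 < ‖q‖ ^ (L * e) := by positivity
    rw [div_lt_iff₀ h3]
    refine lt_of_le_of_lt h1 ?_
    rw [min_mul_of_nonneg _ _ h3.le, lt_min_iff]
    constructor
    · have h4 : 1 / δ < ‖q‖ ^ (L * e) := hqδ.trans_le h2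
      rwa [div_lt_iff₀ hδ, mul_comm] at h4
    · rw [one_mul]
      exact hq1.trans_le h2
  obtain ⟨w, hw⟩ := hsq u (by
    rw [hu, add_sub_cancel_left]
    exact hsmall.trans_le (min_le_left _ _))
  have hun : ‖u‖ = 1 := by
    have h1 : ‖(n : ℚ_[p]) / q ^ (L * e)‖ ≠ ‖(1 : ℚ_[p])‖ := by
      rw [norm_one]
      exact (hsmall.trans_le (min_le_right _ _)).ne
    rw [hu, Padic.add_eq_max_of_ne h1.symm, norm_one]
    exact max_eq_left (hsmall.trans_le (min_le_right _ _)).le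
  have hwn : ‖w‖ = 1 := by
    have h1 : ‖w‖ ^ (L * e) = 1 := by rw [← norm_pow, hw, hun]
    exact (pow_eq_one_iff_of_nonneg (norm_nonneg _) hM).1 h1
  have hx : ((((n : ℚ) + ((m : ℚ) / (p : ℚ) ^ k) ^ (L * e) : ℚ)) : ℚ_[p]) = ((q * w) ^ e) ^ L := by
    have h1 : ((q * w) ^ e) ^ L = q ^ (L * e) * w ^ (L * e) := by
      rw [← pow_mul, mul_comm e L, mul_pow]
    rw [h1, hw, hu, mul_add, mul_one, mul_div_cancel₀ _ (pow_ne_zero _ hq0), hq]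
    push_cast
    ring
  have hzn : ‖q‖ ≤ ‖(q * w) ^ e‖ := by
    rw [norm_pow, norm_mul, hwn, mul_one]
    calc ‖q‖ = ‖q‖ ^ 1 := (pow_one _).symm
      _ ≤ _ := pow_le_pow_right₀ hq1.le (Nat.one_le_iff_ne_zero.2 he)
  have hopen : IsOpen {z : ℚ_[p] | (c : ℝ) < ‖z‖ ∧ ‖z ^ L - ((q * w) ^ e) ^ L‖ < (ε : ℝ)} :=
    (isOpen_lt continuous_const continuous_norm).inter
      (isOpen_lt (((continuous_id.pow L).sub continuous_const).norm) continuous_const)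
  obtain ⟨z, hz1, hz2⟩ := (Padic.denseRange_ratCast (p := p)).exists_mem_open hopen
    ⟨(q * w) ^ e, hqc.trans_le hzn, by
      rw [sub_self, norm_zero]
      exact_mod_cast hε⟩
  refine ⟨z, ?_, ?_⟩
  · rw [Padic.eq_padicNorm] at hz1
    exact_mod_cast hz1
  · rw [← hx] at hz2
    have h1 : ((z : ℚ_[p]) ^ L - ((((n : ℚ) + ((m : ℚ) / (p : ℚ) ^ k) ^ (L * e) : ℚ)) : ℚ_[p])) =
        (((z ^ L - ((n : ℚ) + ((m : ℚ) / (p : ℚ) ^ k) ^ (L * e)) : ℚ)) : ℚ_[p]) := by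
      push_cast
      ring
    rw [h1, Padic.eq_padicNorm] at hz2
    exact_mod_cast hz2

end Pool.Agent.H105.TP
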