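import Pool.Agent.H105.TP.LineAlg

/-!
# Rational numbers without poles at the places of a number field above a prime
-/

set_option autoImplicit false

namespace Pool.Agent.H105.TP

open Polynomial Pool.Agent.TH766.HP NumberField IsDedekindDomain

theorem not_isUnit_prime (K : Type) [Field K] [NumberField K] (p : ℕ) (hp : p.Prime) :
    ¬ IsUnit (p : 𝓞 K) := by
  intro h
  obtain ⟨y, hy⟩ := h.exists_right_inv
  have h1 : (p : K) * (y : K) = 1 := by
    have := congrArg (algebraMap (𝓞 K) K) hy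
    rw [map_mul, map_natCast, map_one] at this
    exact this
  have hp0 : (p : K) ≠ 0 := by exact_mod_cast hp.ne_zero
  have h2 : (y : K) = algebraMap ℚ K ((1 : ℚ) / p) := by
    rw [map_div₀, map_one, map_natCast, eq_div_iff hp0, mul_comm]
    exact h1
  have h3 : IsIntegral ℤ (y : K) := y.isIntegral_coe
  rw [h2, isIntegral_algebraMap_iff (algebraMap ℚ K).injective] at h3
  obtain ⟨z, hz⟩ := IsIntegrallyClosed.isIntegral_iff.1 h3
  have hpq : (p : ℚ) ≠ 0 := by exact_mod_cast hp.ne_zero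
  have h4 : (z : ℚ) * p = 1 := by
    have : ((algebraMap ℤ ℚ) z) = (z : ℚ) := by simp
    rw [this] at hz
    rw [hz]
    field_simp
  have h5 : z * (p : ℤ) = 1 := by exact_mod_cast h4
  have h6 : (p : ℤ) ∣ 1 := ⟨z, by rw [mul_comm]; exact h5.symm⟩
  have h7 : p ∣ 1 := by exact_mod_cast h6
  exact hp.one_lt.ne' (Nat.dvd_one.1 h7)

theorem exists_place (K : Type) [Field K] [NumberField K] (p : ℕ) (hp : p.Prime) :
    ∃ v : HeightOneSpectrum (𝓞 K), (p : 𝓞 K) ∈ v.asIdeal := by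
  obtain ⟨M, hM, hle⟩ := Ideal.exists_le_maximal (Ideal.span {(p : 𝓞 K)})
    (by rw [Ne, Ideal.span_singleton_eq_top]; exact not_isUnit_prime K p hp)
  have hpM : (p : 𝓞 K) ∈ M := hle (Ideal.mem_span_singleton_self _)
  refine ⟨⟨M, hM.isPrime, ?_⟩, hpM⟩
  rintro rfl
  have : (p : 𝓞 K) = 0 := by simpa using hpM
  have h0 : (p : 𝓞 K) ≠ 0 := by exact_mod_cast hp.ne_zero
  exact h0 this

theorem norm_le_one_of (K : Type) [Field K] [NumberField K] (p : ℕ) (hp : p.Prime) (a : ℚ)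
    (h : ∀ v : HeightOneSpectrum (𝓞 K), (p : 𝓞 K) ∈ v.asIdeal → v.valuation K (a : K) ≤ 1) :
    padicNorm p a ≤ 1 := by
  have : Fact p.Prime := ⟨hp⟩
  by_cases hd : p ∣ a.den
  · exfalso
    obtain ⟨v, hv⟩ := exists_place K p hp
    have hcop : IsCoprime a.num (p : ℤ) := by
      rw [Int.isCoprime_iff_gcd_eq_one]
      have h1 : Int.gcd a.num (p : ℤ) = Nat.gcd a.num.natAbs p := rfl
      rw [h1]
      exact Nat.Coprime.coprime_dvd_right hd a.reduced
    obtain ⟨s, t, hst⟩ := hcop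
    have hnum : ¬ v.valuation K ((a.num : 𝓞 K) : K) < 1 := by
      rw [HeightOneSpectrum.valuation_lt_one_iff_mem]
      intro hmem
      apply v.isPrime.ne_top
      rw [Ideal.eq_top_iff_one]
      have h2 : (1 : 𝓞 K) = (s : 𝓞 K) * (a.num : 𝓞 K) + (t : 𝓞 K) * (p : 𝓞 K) := by
        exact_mod_cast hst.symm
      rw [h2]
      exact v.asIdeal.add_mem (v.asIdeal.mul_mem_left _ hmem) (v.asIdeal.mul_mem_left _ hv)
    have hden : v.valuation K ((a.den : 𝓞 K) : K) < 1 := by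
      rw [HeightOneSpectrum.valuation_lt_one_iff_mem]
      obtain ⟨c, hc⟩ := hd
      rw [hc, Nat.cast_mul]
      exact v.asIdeal.mul_mem_right _ hv
    have hmul : (a : K) * ((a.den : 𝓞 K) : K) = ((a.num : 𝓞 K) : K) := by
      have h3 : a * (a.den : ℚ) = (a.num : ℚ) := Rat.mul_den_eq_num a
      have h4 := congrArg (fun q : ℚ => (q : K)) h3
      simp only [Rat.cast_mul, Rat.cast_natCast, Rat.cast_intCast] at h4
      simpa using h4
    apply hnum
    rw [← hmul, map_mul]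
    calc v.valuation K (a : K) * v.valuation K ((a.den : 𝓞 K) : K)
        ≤ 1 * v.valuation K ((a.den : 𝓞 K) : K) := by
          gcongr
          exact h v hv
      _ < 1 := by rw [one_mul]; exact hden
  · have h1 : padicNorm p (a.den : ℚ) = 1 := (padicNorm.nat_eq_one_iff a.den).2 hd
    have h2 : a = (a.num : ℚ) / (a.den : ℚ) := (Rat.num_div_den a).symm
    rw [h2, padicNorm.div, h1, div_one]
    exact padicNorm.of_int a.num

theorem padicNorm_of_int_place (K : Type) [Field K] [NumberField K] (v : HeightOneSpectrum (𝓞 K))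
    (n : ℤ) : v.valuation K (n : K) ≤ 1 := by
  have h1 : v.valuation K ((n : 𝓞 K) : K) ≤ 1 := v.valuation_le_one (K := K) (n : 𝓞 K)
  have h2 : ((n : 𝓞 K) : K) = (n : K) := by simp
  rwa [h2] at h1

/-- The pole relation: `b` has a pole at every place of `K` above a prime of `Q` at which `a` has
a pole. -/
def PoleRel (K : Type) [Field K] [NumberField K] (Q : Set ℕ) (a b : K) : Prop :=
  ∀ v : HeightOneSpectrum (𝓞 K), (∃ p : ℕ, p.Prime ∧ p ∈ Q ∧ ((p : 𝓞 K) ∈ v.asIdeal)) →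
    1 < v.valuation K a → 1 < v.valuation K b

/-- `b` has no pole at the places of `K` above the primes of `Q` -/
def NoPole (K : Type) [Field K] [NumberField K] (Q : Set ℕ) (b : K) : Prop :=
  ∀ v : HeightOneSpectrum (𝓞 K), (∃ p : ℕ, p.Prime ∧ p ∈ Q ∧ ((p : 𝓞 K) ∈ v.asIdeal)) →
    v.valuation K b ≤ 1

theorem PosAlg.poleRel {K : Type} [Field K] [NumberField K] {Q : Set ℕ}
    (hQ : Pool.Agent.TH766.HP.Rich Q) (b : K) (hb : NoPole K Q b) {A : Set ℚ} (hA : PosAlg Q A)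
    (hAP : ∀ a ∈ A, PoleRel K Q (a : K) b) (m k : ℤ) (hk : 0 < k) :
    ∃ m' k' : ℤ, 0 < k' ∧ k ∣ k' ∧ k ∣ m' - m ∧ ∀ n : ℤ, k' ∣ n - m' → (n : ℚ) ∉ A := by
  refine hA.pole hQ (fun a ha p hp hpQ => ?_) m k hk
  refine norm_le_one_of K p hp a fun v hv => ?_
  by_contra hcon
  exact absurd (hAP a ha v ⟨p, hp, hpQ, hv⟩ (not_le.1 hcon)) (not_lt.2 (hb v ⟨p, hp, hpQ, hv⟩))

theorem PosAlg.poleRel_ne {K : Type} [Field K] [NumberField K] {Q : Set ℕ}
    (hQ : Pool.Agent.TH766.HP.Rich Q) (b : K) (hb : NoPole K Q b) :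
    ¬ PosAlg Q {a : ℚ | PoleRel K Q (a : K) b} := by
  intro h
  obtain ⟨m, k, -, -, -, h1⟩ := h.poleRel hQ b hb (fun a ha => ha) 0 1 one_pos
  refine h1 m (by simp) ?_
  intro v _ hlt
  rw [Rat.cast_intCast] at hlt
  exact absurd hlt (not_lt.2 (padicNorm_of_int_place K v m))

end Pool.Agent.H105.TP
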