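import Pool.Agent.H105.TP.Det

/-!
# Sets whose integers are determined by local conditions
-/

set_option autoImplicit false

namespace Pool.Agent.H105.TP

open Polynomial Pool.Agent.H527R9.CC Pool.Agent.TH766.HP

/-- Every residue class contains a residue class with finitely many sets given by local conditions,
such that `A` contains with an integer `n` of the class all the rational numbers of the class which
are in the same of these sets. -/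
def DetPos (Q : Set ℕ) (A : Set ℚ) : Prop := ∀ a1 b1 : ℤ, 0 < b1 →
  ∃ (a0 b0 : ℤ), 0 < b0 ∧ b1 ∣ b0 ∧ b1 ∣ a0 - a1 ∧ ∃ (r : ℕ) (S : Fin r → Set ℚ),
    (∀ i, NiceOn Q a0 b0 (S i)) ∧ ∀ (n : ℤ) (y : ℚ), b0 ∣ n - a0 → y ∈ Cls a0 b0 →
      (∀ i, ((n : ℚ) ∈ S i ↔ y ∈ S i)) → (n : ℚ) ∈ A → y ∈ A

theorem Det.pos {Q : Set ℕ} {A : Set ℚ} (h : Det Q A) : DetPos Q A := by
  intro a1 b1 hb1
  obtain ⟨a0, b0, hb0, h1, h2, r, S, hS, h3⟩ := h a1 b1 hb1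
  exact ⟨a0, b0, hb0, h1, h2, r, S, hS, fun n y hn hy h => (h3 n y (int_mem_Cls hn) hy h).1⟩

theorem DetPos.two {Q : Set ℕ} {D E : Set ℚ} (hD : DetPos Q D) (hE : DetPos Q E) (a1 b1 : ℤ)
    (hb1 : 0 < b1) : ∃ (a0 b0 : ℤ), 0 < b0 ∧ b1 ∣ b0 ∧ b1 ∣ a0 - a1 ∧
      ∃ (r : ℕ) (S : Fin r → Set ℚ), (∀ i, NiceOn Q a0 b0 (S i)) ∧
        ∀ (n : ℤ) (y : ℚ), b0 ∣ n - a0 → y ∈ Cls a0 b0 → (∀ i, ((n : ℚ) ∈ S i ↔ y ∈ S i)) →
          ((n : ℚ) ∈ D → y ∈ D) ∧ ((n : ℚ) ∈ E → y ∈ E) := by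
  obtain ⟨a0, b0, hb0, h1, h2, r, S, hS, h3⟩ := hD a1 b1 hb1
  obtain ⟨a0', b0', hb0', h1', h2', r', S', hS', h3'⟩ := hE a0 b0 hb0
  have hsub := Cls_mono hb0' h1' h2'
  refine ⟨a0', b0', hb0', h1.trans h1', ?_, r + r', Fin.append S S', fun i => ?_,
    fun n y hn hy h => ⟨?_, ?_⟩⟩
  · have : a0' - a1 = (a0' - a0) + (a0 - a1) := by ring
    rw [this]
    exact dvd_add (h1.trans h2') h2
  · refine Fin.addCases (fun i => ?_) (fun i => ?_) i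
    · rw [Fin.append_left]; exact (hS i).mono hsub
    · rw [Fin.append_right]; exact hS' i
  · refine h3 n y ?_ (hsub hy) fun i => ?_
    · have : n - a0 = (n - a0') + (a0' - a0) := by ring
      rw [this]
      exact dvd_add (h1'.trans hn) h2'
    · have := h (Fin.castAdd r' i)
      rwa [Fin.append_left] at this
  · refine h3' n y hn hy fun i => ?_
    have := h (Fin.natAdd r i)
    rwa [Fin.append_right] at this

theorem DetPos.inter {Q : Set ℕ} {D E : Set ℚ} (hD : DetPos Q D) (hE : DetPos Q E) :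
    DetPos Q (D ∩ E) := by
  intro a1 b1 hb1
  obtain ⟨a0, b0, hb0, h1, h2, r, S, hS, h3⟩ := hD.two hE a1 b1 hb1
  exact ⟨a0, b0, hb0, h1, h2, r, S, hS, fun n y hn hy h hA =>
    ⟨(h3 n y hn hy h).1 hA.1, (h3 n y hn hy h).2 hA.2⟩⟩

theorem DetPos.union {Q : Set ℕ} {D E : Set ℚ} (hD : DetPos Q D) (hE : DetPos Q E) :
    DetPos Q (D ∪ E) := by
  intro a1 b1 hb1
  obtain ⟨a0, b0, hb0, h1, h2, r, S, hS, h3⟩ := hD.two hE a1 b1 hb1
  exact ⟨a0, b0, hb0, h1, h2, r, S, hS, fun n y hn hy h hA =>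
    hA.imp (h3 n y hn hy h).1 (h3 n y hn hy h).2⟩

theorem DetPos.congr {Q : Set ℕ} {A B E : Set ℚ} (hE : Negl E) (hB : DetPos Q B)
    (h : ∀ x, x ∉ E → (x ∈ A ↔ x ∈ B)) : DetPos Q A := by
  have h1 : A = (B ∩ Eᶜ) ∪ (A ∩ E) := by
    ext x
    by_cases hx : x ∈ E
    · simp [hx]
    · simp [hx, h x hx]
  rw [h1]
  exact (hB.inter (Det.of_negl hE).compl.pos).union
    (Det.of_negl (hE.mono Set.inter_subset_right)).pos

theorem DetPos.biUnion {Q : Set ℕ} {ι : Type*} (s : Finset ι) (A : ι → Set ℚ)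
    (h : ∀ i ∈ s, DetPos Q (A i)) : DetPos Q (⋃ i ∈ s, A i) := by
  classical
  induction s using Finset.induction_on with
  | empty => simpa using (Det.of_negl (Q := Q) (Negl.of_finite Set.finite_empty)).pos
  | insert i s _ ih =>
    have : (⋃ j ∈ insert i s, A j) = A i ∪ ⋃ j ∈ s, A j := by
      simp
    rw [this]
    exact (h i (Finset.mem_insert_self i s)).union
      (ih fun j hj => h j (Finset.mem_insert_of_mem hj))

theorem DetPos.ex {Q : Set ℕ} (G : ℚ[X][X]) (hG : G ≠ 0) (D : Set (ℚ × ℚ))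
    (h : ∀ ρ : RatFunc ℚ, IsRt G ρ → DetPos Q {x | (x, val ρ x) ∈ D}) :
    DetPos Q {x | ∃ z : ℚ, (G.map (evalRingHom x)).eval z = 0 ∧ (x, z) ∈ D} := by
  obtain ⟨T, E, hT, hE, hcov⟩ := roots_cover G hG
  have hdfin : ∀ ρ : RatFunc ℚ, {x : ℚ | ρ.denom.eval x = 0}.Finite := fun ρ =>
    Polynomial.finite_setOfPred_isRoot ρ.denom_ne_zero
  refine DetPos.congr (E := E ∪ ⋃ ρ ∈ T, {x : ℚ | ρ.denom.eval x = 0})
    (hE.union (Negl.biUnion T _ fun ρ _ => Negl.of_finite (hdfin ρ)))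
    (DetPos.biUnion T (fun ρ => {x | (x, val ρ x) ∈ D}) fun ρ hρ => h ρ (hT ρ hρ)) ?_
  intro x hx
  constructor
  · rintro ⟨z, hz, hD⟩
    obtain ⟨ρ, hρ, rfl⟩ := hcov x (fun hxE => hx (Or.inl hxE)) z hz
    exact Set.mem_biUnion hρ hD
  · intro hx'
    obtain ⟨ρ, hρ, hD⟩ := Set.mem_iUnion₂.1 hx'
    refine ⟨val ρ x, root_val G ρ (hT ρ hρ) x fun h0 => ?_, hD⟩
    exact hx (Or.inr (Set.mem_biUnion hρ h0))

/-- Such a set all of whose elements are integers misses all integers of a residue class inside any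
given residue class. -/
theorem DetPos.main {Q : Set ℕ} (hQ : Pool.Agent.TH766.HP.Rich Q) {A : Set ℚ} (hA : DetPos Q A)
    (hAZ : A ⊆ Set.range fun n : ℤ => (n : ℚ)) (a1 b1 : ℤ) (hb1 : 0 < b1) :
    ∃ a b : ℤ, 0 < b ∧ b1 ∣ b ∧ b1 ∣ a - a1 ∧ ∀ n : ℤ, b ∣ n - a → (n : ℚ) ∉ A := by
  by_contra hcon
  push Not at hcon
  obtain ⟨a0, b0, hb0, h1, h2, r, S, hS, hdet⟩ := hA a1 b1 hb1
  obtain ⟨x, hxC, hx, l, ⟨hlA, hlC⟩, hlx⟩ := core Q hQ a0 b0 hb0 r S hS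
    {v | ∃ l : ℤ, ((l : ℚ) ∈ A ∧ b0 ∣ l - a0) ∧ (fun i => (l : ℚ) ∈ S i) = v}
    (fun a b hb h3 h4 => by
      obtain ⟨n, hn1, hn2⟩ := hcon a b hb (h1.trans h3) (by
        have : a - a1 = (a - a0) + (a0 - a1) := by ring
        rw [this]
        exact dvd_add (h1.trans h4) h2)
      refine ⟨n, hn1, n, ⟨hn2, ?_⟩, rfl⟩
      have : n - a0 = (n - a) + (a - a0) := by ring
      rw [this]
      exact dvd_add (h3.trans hn1) h4)
  have hxA : x ∈ A := hdet l x hlC hxC (fun i => (congrFun hlx i).to_iff) hlA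
  obtain ⟨l', hl'⟩ := hAZ hxA
  exact hx l' hl'.symm

end Pool.Agent.H105.TP
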